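import Mathlib

set_option autoImplicit false

/-!
# Planar three-body problem, hierarchical (near-parabolic) excursions: basic definitions

Plane = complex numbers.  Bodies i, j (masses a, b) form the tight pair, body k (mass c) is outside;
x = q_j - q_i, y = q_k - (a q_i + b q_j)/(a+b), u = x', v = y'.
-/

namespace Pool.Agent.Helper35TB

open Set

/-- cross product -/
def cr (z w : ℂ) : ℝ := z.re * w.im - z.im * w.re

/-- dot product -/
def dt (z w : ℂ) : ℝ := z.re * w.re + z.im * w.im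

/-- the Newton kernel z / |z|^3 -/
noncomputable def K (z : ℂ) : ℂ := ((‖z‖ ^ 3)⁻¹ : ℝ) • z

lemma K_re (z : ℂ) : (K z).re = (‖z‖ ^ 3)⁻¹ * z.re := by
  rw [K, Complex.smul_re, smul_eq_mul]
lemma K_im (z : ℂ) : (K z).im = (‖z‖ ^ 3)⁻¹ * z.im := by
  rw [K, Complex.smul_im, smul_eq_mul]

lemma smul_re' (r : ℝ) (z : ℂ) : (r • z).re = r * z.re := by rw [Complex.smul_re, smul_eq_mul]
lemma smul_im' (r : ℝ) (z : ℂ) : (r • z).im = r * z.im := by rw [Complex.smul_im, smul_eq_mul]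

lemma norm_sq_eq (z : ℂ) : ‖z‖ ^ 2 = dt z z := by
  rw [Complex.sq_norm, Complex.normSq_apply, dt]

lemma lagrange_id (z w : ℂ) : dt z w ^ 2 + cr z w ^ 2 = ‖z‖ ^ 2 * ‖w‖ ^ 2 := by
  rw [norm_sq_eq, norm_sq_eq]; simp only [dt, cr]; ring

lemma abs_dt_le (z w : ℂ) : |dt z w| ≤ ‖z‖ * ‖w‖ := by
  rw [← Real.sqrt_sq (mul_nonneg (norm_nonneg z) (norm_nonneg w)), mul_pow, ← lagrange_id,
    ← Real.sqrt_sq_eq_abs]
  exact Real.sqrt_le_sqrt (by nlinarith [sq_nonneg (cr z w)])

lemma abs_cr_le (z w : ℂ) : |cr z w| ≤ ‖z‖ * ‖w‖ := by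
  rw [← Real.sqrt_sq (mul_nonneg (norm_nonneg z) (norm_nonneg w)), mul_pow, ← lagrange_id,
    ← Real.sqrt_sq_eq_abs]
  exact Real.sqrt_le_sqrt (by nlinarith [sq_nonneg (dt z w)])

/-- tidal force on the relative vector of the pair -/
noncomputable def fF (a b c : ℝ) (x y : ℂ) : ℂ :=
  c • (K (y - (a / (a + b)) • x) - K (y + (b / (a + b)) • x))

/-- perturbation of the outer Kepler motion -/
noncomputable def gF (a b c : ℝ) (x y : ℂ) : ℂ :=
  (a + b + c) • K y - (a + b + c) • ((a / (a + b)) • K (y + (b / (a + b)) • x)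
    + (b / (a + b)) • K (y - (a / (a + b)) • x))

/-- acceleration of x -/
noncomputable def accX (a b c : ℝ) (x y : ℂ) : ℂ := -((a + b) • K x) + fF a b c x y

/-- acceleration of y -/
noncomputable def accY (a b c : ℝ) (x y : ℂ) : ℂ := -((a + b + c) • K y) + gF a b c x y

/-- specific energy of the pair -/
noncomputable def eb (a b : ℝ) (x u : ℂ) : ℝ := ‖u‖ ^ 2 / 2 - (a + b) / ‖x‖

/-- specific energy of the outer motion -/
noncomputable def eo (a b c : ℝ) (y v : ℂ) : ℝ := ‖v‖ ^ 2 / 2 - (a + b + c) / ‖y‖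

/-- reduced masses -/
noncomputable def mub (a b : ℝ) : ℝ := a * b / (a + b)
noncomputable def muo (a b c : ℝ) : ℝ := c * (a + b) / (a + b + c)

/-- energy of the outer motion -/
noncomputable def Eo (a b c : ℝ) (y v : ℂ) : ℝ := muo a b c * eo a b c y v

/-- interaction energy W, so that energy = mub*eb + muo*eo - W -/
noncomputable def Wf (a b c : ℝ) (x y : ℂ) : ℝ :=
  c * (a / ‖y + (b / (a + b)) • x‖ + b / ‖y - (a / (a + b)) • x‖) - c * (a + b) / ‖y‖

/-- total energy -/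
noncomputable def En (a b c : ℝ) (x y u v : ℂ) : ℝ :=
  mub a b * eb a b x u + muo a b c * eo a b c y v - Wf a b c x y

/-- total angular momentum -/
noncomputable def Am (a b c : ℝ) (x y u v : ℂ) : ℝ := mub a b * cr x u + muo a b c * cr y v

/-- Laplace (eccentricity) vector of a Kepler motion with parameter m -/
noncomputable def Lap (m : ℝ) (x u : ℂ) : ℂ :=
  ⟨cr x u / m * u.im - x.re / ‖x‖, -(cr x u / m * u.re) - x.im / ‖x‖⟩

/-- radial velocity of the outer body -/
noncomputable def Sr (y v : ℂ) : ℝ := dt y v / ‖y‖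

/-- masses within 1/10^6 of one -/
structure MassNear (a b c : ℝ) : Prop where
  ha : |a - 1| ≤ 1 / 10 ^ 6
  hb : |b - 1| ≤ 1 / 10 ^ 6
  hc : |c - 1| ≤ 1 / 10 ^ 6

end Pool.Agent.Helper35TB
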