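import Pool.Agent.Helper35_TB.Basic

set_option autoImplicit false

namespace Pool.Agent.Helper35TB

open Set

lemma hasDerivAt_re {f : ℝ → ℂ} {f' : ℂ} {t : ℝ} (h : HasDerivAt f f' t) :
    HasDerivAt (fun s => (f s).re) f'.re t := by
  have := (Complex.reCLM.hasFDerivAt (x := f t)).comp_hasDerivAt t h
  simpa [Function.comp_def] using this

lemma hasDerivAt_im {f : ℝ → ℂ} {f' : ℂ} {t : ℝ} (h : HasDerivAt f f' t) :
    HasDerivAt (fun s => (f s).im) f'.im t := by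
  have := (Complex.imCLM.hasFDerivAt (x := f t)).comp_hasDerivAt t h
  simpa [Function.comp_def] using this

lemma hasDerivAt_cr {f g : ℝ → ℂ} {f' g' : ℂ} {t : ℝ} (hf : HasDerivAt f f' t)
    (hg : HasDerivAt g g' t) :
    HasDerivAt (fun s => cr (f s) (g s)) (cr f' (g t) + cr (f t) g') t := by
  have := ((hasDerivAt_re hf).mul (hasDerivAt_im hg)).sub ((hasDerivAt_im hf).mul (hasDerivAt_re hg))
  refine this.congr_deriv ?_
  simp only [cr]; ring

lemma hasDerivAt_dt {f g : ℝ → ℂ} {f' g' : ℂ} {t : ℝ} (hf : HasDerivAt f f' t)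
    (hg : HasDerivAt g g' t) :
    HasDerivAt (fun s => dt (f s) (g s)) (dt f' (g t) + dt (f t) g') t := by
  have := ((hasDerivAt_re hf).mul (hasDerivAt_re hg)).add ((hasDerivAt_im hf).mul (hasDerivAt_im hg))
  refine this.congr_deriv ?_
  simp only [dt]; ring

lemma hasDerivAt_normsq {f : ℝ → ℂ} {f' : ℂ} {t : ℝ} (hf : HasDerivAt f f' t) :
    HasDerivAt (fun s => ‖f s‖ ^ 2) (2 * dt (f t) f') t := by
  have h := hasDerivAt_dt hf hf
  have e : (fun s => ‖f s‖ ^ 2) = fun s => dt (f s) (f s) := by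
    funext s; exact norm_sq_eq _
  rw [e]
  refine h.congr_deriv ?_
  simp only [dt]; ring

lemma hasDerivAt_norm' {f : ℝ → ℂ} {f' : ℂ} {t : ℝ} (hf : HasDerivAt f f' t) (h0 : f t ≠ 0) :
    HasDerivAt (fun s => ‖f s‖) (dt (f t) f' / ‖f t‖) t := by
  have h1 : ‖f t‖ ≠ 0 := norm_ne_zero_iff.mpr h0
  have h2 : ‖f t‖ ^ 2 ≠ 0 := pow_ne_zero 2 h1
  have h3 := (hasDerivAt_normsq hf).sqrt h2
  have e : (fun s => √(‖f s‖ ^ 2)) = fun s => ‖f s‖ := by
    funext s; exact Real.sqrt_sq (norm_nonneg _)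
  rw [e] at h3
  refine h3.congr_deriv ?_
  rw [Real.sqrt_sq (norm_nonneg _)]
  field_simp

/-- perturbed Kepler motion with parameter m at time t -/
structure KepAt (m : ℝ) (z w : ℝ → ℂ) (φ : ℂ) (t : ℝ) : Prop where
  hz : HasDerivAt z (w t) t
  hw : HasDerivAt w (-(m • K (z t)) + φ) t

variable {m : ℝ} {z w : ℝ → ℂ} {φ : ℂ} {t : ℝ}

lemma kacc_re (m : ℝ) (z φ : ℂ) : (-(m • K z) + φ).re = -(m * ((‖z‖ ^ 3)⁻¹ * z.re)) + φ.re := by
  simp only [Complex.add_re, Complex.neg_re, smul_re', K_re]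

lemma kacc_im (m : ℝ) (z φ : ℂ) : (-(m • K z) + φ).im = -(m * ((‖z‖ ^ 3)⁻¹ * z.im)) + φ.im := by
  simp only [Complex.add_im, Complex.neg_im, smul_im', K_im]

lemma KepAt.cross (h : KepAt m z w φ t) :
    HasDerivAt (fun s => cr (z s) (w s)) (cr (z t) φ) t := by
  refine (hasDerivAt_cr h.hz h.hw).congr_deriv ?_
  simp only [cr, kacc_re, kacc_im]; ring

lemma KepAt.norm (h : KepAt m z w φ t) (h0 : z t ≠ 0) :
    HasDerivAt (fun s => ‖z s‖) (dt (z t) (w t) / ‖z t‖) t := hasDerivAt_norm' h.hz h0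

/-- derivative of the radial velocity -/
lemma KepAt.radial (h : KepAt m z w φ t) (h0 : z t ≠ 0) :
    HasDerivAt (fun s => Sr (z s) (w s))
      (cr (z t) (w t) ^ 2 / ‖z t‖ ^ 3 - m / ‖z t‖ ^ 2 + dt (z t) φ / ‖z t‖) t := by
  have h1 : ‖z t‖ ≠ 0 := norm_ne_zero_iff.mpr h0
  have h2 := (hasDerivAt_dt h.hz h.hw).div (h.norm h0) h1
  refine h2.congr_deriv ?_
  have e1 : dt (z t) (-(m • K (z t)) + φ) = -(m / ‖z t‖) + dt (z t) φ := by
    have : dt (z t) (-(m • K (z t)) + φ) = -(m * ((‖z t‖ ^ 3)⁻¹ * dt (z t) (z t))) + dt (z t) φ := by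
      simp only [dt, kacc_re, kacc_im]; ring
    rw [this, ← norm_sq_eq]; field_simp
  have e2 : dt (w t) (w t) = (cr (z t) (w t) ^ 2 + dt (z t) (w t) ^ 2) / ‖z t‖ ^ 2 := by
    have := lagrange_id (z t) (w t)
    rw [← norm_sq_eq]
    field_simp
    linarith
  rw [e1, e2]
  field_simp
  ring

/-- derivative of the specific Kepler energy -/
lemma KepAt.energy (h : KepAt m z w φ t) (h0 : z t ≠ 0) :
    HasDerivAt (fun s => ‖w s‖ ^ 2 / 2 - m / ‖z s‖) (dt (w t) φ) t := by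
  have h1 : ‖z t‖ ≠ 0 := norm_ne_zero_iff.mpr h0
  have h2 := ((hasDerivAt_normsq h.hw).div_const 2).sub
    ((hasDerivAt_const t m).div (h.norm h0) h1)
  refine h2.congr_deriv ?_
  have e1 : dt (w t) (-(m • K (z t)) + φ) = -(m * ((‖z t‖ ^ 3)⁻¹ * dt (z t) (w t)))
      + dt (w t) φ := by
    simp only [dt, kacc_re, kacc_im]; ring
  rw [e1]
  field_simp
  ring

/-- derivative of the Laplace vector -/
lemma KepAt.lap (h : KepAt m z w φ t) (h0 : z t ≠ 0) (hm : m ≠ 0) :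
    HasDerivAt (fun s => Lap m (z s) (w s))
      (⟨(cr (z t) φ * (w t).im + cr (z t) (w t) * φ.im) / m,
        -((cr (z t) φ * (w t).re + cr (z t) (w t) * φ.re) / m)⟩ : ℂ) t := by
  have h1 : ‖z t‖ ≠ 0 := norm_ne_zero_iff.mpr h0
  have hc := (h.cross).div_const m
  have hr := h.norm h0
  have h3 : ‖z t‖ ^ 2 = (z t).re ^ 2 + (z t).im ^ 2 := by
    rw [norm_sq_eq]; simp only [dt]; ring
  have hre : HasDerivAt (fun s => (Lap m (z s) (w s)).re)
      ((cr (z t) φ * (w t).im + cr (z t) (w t) * φ.im) / m) t := by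
    have := (hc.mul (hasDerivAt_im h.hw)).sub ((hasDerivAt_re h.hz).div hr h1)
    refine this.congr_deriv ?_
    rw [kacc_im]
    simp only [cr, dt]
    field_simp
    rw [h3]
    ring
  have him : HasDerivAt (fun s => (Lap m (z s) (w s)).im)
      (-((cr (z t) φ * (w t).re + cr (z t) (w t) * φ.re) / m)) t := by
    have := (hc.mul (hasDerivAt_re h.hw)).neg.sub ((hasDerivAt_im h.hz).div hr h1)
    refine this.congr_deriv ?_
    rw [kacc_re]
    simp only [cr, dt]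
    field_simp
    rw [h3]
    ring
  have h4 : HasDerivAt (fun s => (((Lap m (z s) (w s)).re : ℝ) : ℂ)
      + ((Lap m (z s) (w s)).im : ℝ) * Complex.I)
      ((((cr (z t) φ * (w t).im + cr (z t) (w t) * φ.im) / m : ℝ) : ℂ)
      + (-((cr (z t) φ * (w t).re + cr (z t) (w t) * φ.re) / m) : ℝ) * Complex.I) t :=
    hre.ofReal_comp.add (him.ofReal_comp.mul_const Complex.I)
  have e : (fun s => (((Lap m (z s) (w s)).re : ℝ) : ℂ)
      + ((Lap m (z s) (w s)).im : ℝ) * Complex.I) = fun s => Lap m (z s) (w s) := by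
    funext s; exact Complex.re_add_im _
  rw [e] at h4
  refine h4.congr_deriv ?_
  apply Complex.ext <;> simp

/-- Laplace vector identities -/
lemma dt_lap_pos (m : ℝ) (z w : ℂ) (h0 : z ≠ 0) :
    dt z (Lap m z w) = cr z w ^ 2 / m - ‖z‖ := by
  have h1 : ‖z‖ ≠ 0 := norm_ne_zero_iff.mpr h0
  have : dt z (Lap m z w) = cr z w ^ 2 / m - dt z z / ‖z‖ := by
    simp only [dt, cr, Lap]; ring
  rw [this, ← norm_sq_eq]; field_simp

lemma cr_lap_pos (m : ℝ) (z w : ℂ) :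
    cr z (Lap m z w) = -(cr z w * dt z w / m) := by
  simp only [dt, cr, Lap]; ring

lemma dt_lap_vel (m : ℝ) (z w : ℂ) :
    dt (Lap m z w) w = -(dt z w / ‖z‖) := by
  simp only [dt, cr, Lap]; ring

lemma norm_lap_sq (m : ℝ) (z w : ℂ) (h0 : z ≠ 0) (hm : m ≠ 0) :
    ‖Lap m z w‖ ^ 2 = 1 + 2 * (‖w‖ ^ 2 / 2 - m / ‖z‖) * cr z w ^ 2 / m ^ 2 := by
  have h1 : ‖z‖ ≠ 0 := norm_ne_zero_iff.mpr h0
  have h3 : ‖z‖ ^ 2 = z.re ^ 2 + z.im ^ 2 := by
    rw [norm_sq_eq]; simp only [dt]; ring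
  have h4 : ‖w‖ ^ 2 = w.re ^ 2 + w.im ^ 2 := by
    rw [norm_sq_eq]; simp only [dt]; ring
  have h5 : ‖Lap m z w‖ ^ 2 = (cr z w / m * w.im - z.re / ‖z‖) ^ 2
      + (cr z w / m * w.re + z.im / ‖z‖) ^ 2 := by
    rw [norm_sq_eq]; simp only [dt, Lap]; ring
  have h6 : cr z w / m * w.im * (z.re / ‖z‖) - cr z w / m * w.re * (z.im / ‖z‖)
      = cr z w ^ 2 / (m * ‖z‖) := by
    simp only [cr]; field_simp
  have h7 : (cr z w / m * w.im - z.re / ‖z‖) ^ 2 + (cr z w / m * w.re + z.im / ‖z‖) ^ 2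
      = cr z w ^ 2 / m ^ 2 * (w.re ^ 2 + w.im ^ 2) - 2 * (cr z w ^ 2 / (m * ‖z‖))
        + (z.re ^ 2 + z.im ^ 2) / ‖z‖ ^ 2 := by
    rw [← h6]; field_simp; ring
  rw [h5, h7, h4, ← h3]
  field_simp
  ring

end Pool.Agent.Helper35TB
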