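import Pool.Agent.Helper35_TB.Lyap

set_option autoImplicit false

namespace Pool.Agent.HM.FAR

open Complex Set Topology Pool.Agent.HM

lemma comb_le {f g f' g' : ℝ → ℝ} {T k t : ℝ} (ht : t ∈ Icc (0 : ℝ) T)
    (hf : ∀ τ ∈ Icc (0 : ℝ) T, HasDerivWithinAt f (f' τ) (Icc 0 T) τ)
    (hg : ∀ τ ∈ Icc (0 : ℝ) T, HasDerivWithinAt g (g' τ) (Icc 0 T) τ)
    (h : ∀ τ ∈ Icc (0 : ℝ) t, f' τ ≤ k * g' τ) : f t - f 0 ≤ k * (g t - g 0) := by
  have hsub : Icc (0 : ℝ) t ⊆ Icc 0 T := Icc_subset_Icc_right ht.2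
  have hd : ∀ τ ∈ Icc (0 : ℝ) t, HasDerivWithinAt (fun τ => f τ - k * g τ) (f' τ - k * g' τ)
      (Icc 0 t) τ :=
    fun τ hτ => ((hf τ (hsub hτ)).sub ((hg τ (hsub hτ)).const_mul k)).mono hsub
  have ha : AntitoneOn (fun τ => f τ - k * g τ) (Icc 0 t) := by
    refine antitoneOn_of_hasDerivWithinAt_nonpos (convex_Icc 0 t)
      (fun τ hτ => (hd τ hτ).continuousWithinAt)
      (f' := fun τ => f' τ - k * g' τ) (fun τ hτ => ?_) (fun τ hτ => ?_)
    · exact (hd τ (interior_subset hτ)).mono interior_subset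
    · have := h τ (interior_subset hτ); linarith
  have := ha ⟨le_rfl, ht.1⟩ ⟨ht.1, le_rfl⟩ ht.1
  simp only at this
  linarith

/-- DRIFT -/
theorem drift (hC : ConsPtStmt) (hB : BridgeStmt) (hAng : AngStmt) (hDir : DirStmt)
    (hRate : RateStmt) : DriftStmt := by
  intro m hm σ hσ T X R hA
  obtain ⟨θ, hθ0, hθ', hθg⟩ := hAng m hm σ hσ T X R hA
  obtain ⟨⟨V, V', hV, hVt⟩, _⟩ := lyap hC hB m hm σ hσ T X R hA
  have hT := R.toT hC hB hm hσ
  obtain ⟨hlev, hx2, hR1, hR2, hS1, hS2, hL1, hL2, hg0, hE⟩ := R.start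
  have hx0 : (X 0).1 ≠ 0 := hlev.1.1
  have hy0 : (X 0).2.1 ≠ 0 := norm_pos_iff.mp (by linarith)
  have hb := hB m hm (X 0) hx0 hy0
  have hs := hT.toSeg hb.1.toB
  have hcrf : ∀ z w : ℂ, cr z w = Helper35TB.cr z w := hb.2.1
  set Lm : ℝ → ℝ := fun t => Helper35TB.cr (X t).1 (X t).2.2.1 with hLm
  set Lm' : ℝ → ℝ := fun t => Helper35TB.cr (X t).1
    (Helper35TB.fF (m 0) (m 1) (m 2) (X t).1 (X t).2.1) with hLm'
  have dL : ∀ t ∈ Icc (0 : ℝ) T, HasDerivWithinAt Lm (Lm' t) (Icc 0 T) t :=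
    fun t ht => (hs.dL ht).hasDerivWithinAt
  have dV : ∀ t ∈ Icc (0 : ℝ) T, HasDerivWithinAt V (V' t) (Icc 0 T) t :=
    fun t ht => (hV t ht).1.hasDerivWithinAt
  have hσ2 : σ * σ = 1 := by rcases hσ with rfl | rfl <;> norm_num
  have hLL : ∀ t, LL (X t) = Lm t / 2 := fun t => by rw [LL, hcrf]
  have hL10 : 0.091 ≤ σ * Lm 0 := by
    have := hL1; rw [hLL] at this; linarith
  have hL20 : σ * Lm 0 ≤ 0.098 := by
    have := hL2; rw [hLL] at this; linarith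
  have habsσ : ∀ z : ℝ, |σ * z| = |z| := fun z => by
    rcases hσ with rfl | rfl <;> simp
  -- rates as long as the angle and the angular momentum stay close to the initial values
  have hrate : ∀ t ∈ Icc (0 : ℝ) T, |θ t| ≤ 0.0016 → |Lm t - Lm 0| ≤ 0.0022 →
      -0.3856 * V' t ≤ Lm' t ∧ Lm' t ≤ 0.0331 * V' t ∧ -0.0780 * V' t ≤ -σ * omr m (X t) ∧
      -σ * omr m (X t) ≤ 0.2660 * V' t ∧ -0.52 * V' t ≤ 1.3 * Lm' t + -σ * omr m (X t) := by
    intro t ht h1 h2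
    have hA' := hA t ht
    have hR := hA'.R1
    have hy : 0 < ‖(X t).2.1‖ := by linarith
    have h3 : |σ * (Lm t - Lm 0)| ≤ 0.0022 := by rw [habsσ]; exact h2
    have h3' := abs_le.mp h3
    have l1 : 0.0888 ≤ σ * Lm t := by linarith
    have l2 : σ * Lm t ≤ 0.1002 := by linarith
    have hgg := hθg t ht (by linarith)
    have hgd : |gg m (X t) - gref| ≤ 0.0061 := by
      rw [hgg]
      have := abs_add_le (gg m (X 0) - gref) (θ t)
      have e : gg m (X 0) + θ t - gref = gg m (X 0) - gref + θ t := by ring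
      rw [e]; linarith
    have hLabs : |cr (X t).1 (X t).2.2.1| ≤ 0.1002 := by
      rw [hcrf, ← habsσ, abs_of_nonneg (by linarith)]
      exact l2
    obtain ⟨d1, d2, d3⟩ := hDir m hm (X t) hA' 0.1002 0.0061 hLabs (by norm_num) hgd (by norm_num)
    have hp : 0 ≤ ‖lrl m (X t)‖ * ‖(X t).2.1‖ := by positivity
    obtain ⟨r1, r2, r3, r4, r5⟩ := hRate m hm (X t) hA' σ hσ (by rw [hcrf]; linarith)
      (by rw [hcrf]; linarith)
      (d1.trans (mul_le_mul_of_nonneg_right (by norm_num) hp))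
      (le_trans (mul_le_mul_of_nonneg_right (by norm_num) hp) d2) d3
    rw [hcrf] at r1 r2 r5
    have hV1 := (hV t ht).2
    clear hVt hT hs hb dL dV hθ' hθg hC hB hAng hDir hRate hA d1 d2 d3
    set ρ := ‖(X t).2.1‖ with hρ
    have hρ3 : 0 < ρ ^ 3 := by positivity
    have hone : ρ ^ 3 * (1 / ρ ^ 3) = 1 := by field_simp
    have hv : 1 ≤ ρ ^ 3 * V' t := by
      rw [← hone]; exact mul_le_mul_of_nonneg_left hV1 hρ3.le
    have key : ∀ k z : ℝ, 0 ≤ k → ρ ^ 3 * z ≤ k → z ≤ k * V' t := by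
      intro k z hk hz
      have : ρ ^ 3 * z ≤ ρ ^ 3 * (k * V' t) := by nlinarith
      exact le_of_mul_le_mul_left this hρ3
    have k1 := key 0.3856 (-Lm' t) (by norm_num) (by simp only [hLm']; linarith)
    have k2 := key 0.0331 (Lm' t) (by norm_num) (by simp only [hLm']; linarith)
    have k3 := key 0.0780 (-(-σ * omr m (X t))) (by norm_num) (by linarith)
    have k4 := key 0.2660 (-σ * omr m (X t)) (by norm_num) (by linarith)
    have k5 := key 0.52 (-(1.3 * Lm' t + -σ * omr m (X t))) (by norm_num)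
      (by simp only [hLm']; linarith)
    refine ⟨by linarith, k2, by linarith, k4, by linarith⟩
  -- integrated bounds
  have hint : ∀ t ∈ Icc (0 : ℝ) T, (∀ τ ∈ Icc (0 : ℝ) t, |θ τ| ≤ 0.0016 ∧ |Lm τ - Lm 0| ≤ 0.0022) →
      -0.3856 * 0.00483 ≤ Lm t - Lm 0 ∧ Lm t - Lm 0 ≤ 0.0331 * 0.00483 ∧
      -0.0780 * 0.00483 ≤ -σ * θ t ∧ -σ * θ t ≤ 0.2660 * 0.00483 ∧
      -0.52 * 0.00483 ≤ 1.3 * (Lm t - Lm 0) + -σ * θ t := by
    intro t ht hc
    have hsub : ∀ τ ∈ Icc (0 : ℝ) t, τ ∈ Icc (0 : ℝ) T := fun τ hτ => ⟨hτ.1, hτ.2.trans ht.2⟩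
    have hr := fun τ (hτ : τ ∈ Icc (0 : ℝ) t) => hrate τ (hsub τ hτ) (hc τ hτ).1 (hc τ hτ).2
    have dθ : ∀ t ∈ Icc (0 : ℝ) T, HasDerivWithinAt (fun t => -σ * θ t) (-σ * omr m (X t))
        (Icc 0 T) t := fun t ht => (hθ' t ht).const_mul (-σ)
    have dθn : ∀ t ∈ Icc (0 : ℝ) T, HasDerivWithinAt (fun t => -(-σ * θ t))
        (-(-σ * omr m (X t))) (Icc 0 T) t := fun t ht => (dθ t ht).neg
    have dLn : ∀ t ∈ Icc (0 : ℝ) T, HasDerivWithinAt (fun t => -Lm t) (-Lm' t) (Icc 0 T) t :=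
      fun t ht => (dL t ht).neg
    have dj : ∀ t ∈ Icc (0 : ℝ) T, HasDerivWithinAt (fun t => -(1.3 * Lm t + -σ * θ t))
        (-(1.3 * Lm' t + -σ * omr m (X t))) (Icc 0 T) t :=
      fun t ht => (((dL t ht).const_mul 1.3).add (dθ t ht)).neg
    have i1 := comb_le (k := 0.3856) ht dLn dV (fun τ hτ => by linarith [(hr τ hτ).1])
    have i2 := comb_le (k := 0.0331) ht dL dV (fun τ hτ => (hr τ hτ).2.1)
    have i3 := comb_le (k := 0.0780) ht dθn dV (fun τ hτ => by linarith [(hr τ hτ).2.2.1])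
    have i4 := comb_le (k := 0.2660) ht dθ dV (fun τ hτ => (hr τ hτ).2.2.2.1)
    have i5 := comb_le (k := 0.52) ht dj dV (fun τ hτ => by linarith [(hr τ hτ).2.2.2.2])
    have hv := hVt t ht
    simp only [hθ0, mul_zero, neg_zero, add_zero, sub_zero] at i1 i2 i3 i4 i5
    refine ⟨by linarith, by linarith, by linarith, by linarith, by linarith⟩
  -- continuity induction
  have hθc : ContinuousOn θ (Icc 0 T) := fun t ht => (hθ' t ht).continuousWithinAt
  have hLc : ContinuousOn Lm (Icc 0 T) := fun t ht => (dL t ht).continuousWithinAt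
  have hpos : ∀ t ∈ Icc (0 : ℝ) T,
      0 < min (0.0016 - |θ t|) (0.0022 - |Lm t - Lm 0|) := by
    refine Helper35TB.cont_induction ?_ ?_ ?_
    · exact (continuousOn_const.sub hθc.abs).inf
        (continuousOn_const.sub (hLc.sub continuousOn_const).abs)
    · intro t ht hc
      have hc' : ∀ τ ∈ Icc (0 : ℝ) t, |θ τ| ≤ 0.0016 ∧ |Lm τ - Lm 0| ≤ 0.0022 := by
        intro τ hτ
        have := hc τ hτ
        rw [le_min_iff] at this
        exact ⟨by linarith [this.1], by linarith [this.2]⟩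
      obtain ⟨j1, j2, j3, j4, j5⟩ := hint t ht hc'
      have a1 : |θ t| ≤ 0.0013 := by
        rw [← habsσ, ← abs_neg, ← neg_mul, abs_le]
        constructor <;> linarith
      have a2 : |Lm t - Lm 0| ≤ 0.0019 := by
        rw [abs_le]; constructor <;> linarith
      rw [lt_min_iff]
      constructor <;> linarith
    · rw [hθ0]; norm_num
  intro t ht
  have hc' : ∀ τ ∈ Icc (0 : ℝ) t, |θ τ| ≤ 0.0016 ∧ |Lm τ - Lm 0| ≤ 0.0022 := by
    intro τ hτ
    have := hpos τ ⟨hτ.1, hτ.2.trans ht.2⟩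
    rw [lt_min_iff] at this
    exact ⟨by linarith [this.1], by linarith [this.2]⟩
  obtain ⟨j1, j2, j3, j4, j5⟩ := hint t ht hc'
  obtain ⟨q1, q2⟩ := hc' t ⟨ht.1, le_rfl⟩
  have hgg := hθg t ht (by linarith)
  have h3 : |σ * (Lm t - Lm 0)| ≤ 0.0022 := by rw [habsσ]; exact q2
  have h3' := abs_le.mp h3
  have hLt := hLL t
  have hL0' := hLL 0
  refine ⟨by rw [hcrf]; linarith, by rw [hcrf]; linarith, ?_, ?_⟩
  · rw [hgg, hLt, hL0', abs_le]
    simp only [dLf, dGf, etaD]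
    rcases hσ with rfl | rfl <;> constructor <;> norm_num at * <;> linarith
  · rw [hgg, hLt, hL0', abs_le]
    simp only [dLf, dGf, etaD]
    rcases hσ with rfl | rfl <;> constructor <;> norm_num at * <;> linarith

end Pool.Agent.HM.FAR
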