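import Pool.Agent.Helper35_TB.Region

set_option autoImplicit false

namespace Pool.Agent.Helper35TB

open Set

/-- expansion of 1/ρ - (ρ²+αX)/q³ where q² = ρ² + 2αX + α²r² -/
lemma radial_exp {ρ q X α r : ℝ} (hρ : 0 < ρ) (hq : 0 < q)
    (h : q ^ 2 = ρ ^ 2 + 2 * α * X + α ^ 2 * r ^ 2) :
    1 / ρ - (q ^ 3)⁻¹ * (ρ ^ 2 + α * X) - (q ^ 2 - ρ ^ 2) / ρ ^ 3
      = (α ^ 2 * r ^ 2 * (ρ / q) ^ 3 / 2
        - (ρ - q) ^ 2 * ((ρ / q) ^ 3 / 2 + (ρ / q) ^ 2 + 2 * (ρ / q) + 1)) / ρ ^ 3 := by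
  have hX : α * X = (q ^ 2 - ρ ^ 2 - α ^ 2 * r ^ 2) / 2 := by linarith
  rw [hX]
  field_simp
  ring

lemma radial_bd {ρ q X α r : ℝ} (hρ : 0 < ρ) (hq1 : 0.9755 * ρ ≤ q)
    (h : q ^ 2 = ρ ^ 2 + 2 * α * X + α ^ 2 * r ^ 2) (hd : (ρ - q) ^ 2 ≤ α ^ 2 * r ^ 2) :
    -(4.65 * (α ^ 2 * r ^ 2) / ρ ^ 3)
        ≤ 1 / ρ - (q ^ 3)⁻¹ * (ρ ^ 2 + α * X) - (q ^ 2 - ρ ^ 2) / ρ ^ 3 ∧
      1 / ρ - (q ^ 3)⁻¹ * (ρ ^ 2 + α * X) - (q ^ 2 - ρ ^ 2) / ρ ^ 3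
        ≤ 0.54 * (α ^ 2 * r ^ 2) / ρ ^ 3 := by
  have hq : 0 < q := lt_of_lt_of_le (by positivity) hq1
  have hw0 : 0 < ρ / q := by positivity
  have hw1 : ρ / q ≤ 1.0252 := by
    rw [div_le_iff₀ hq]; nlinarith
  have hw2 : (ρ / q) ^ 2 ≤ 1.0252 ^ 2 := pow_le_pow_left₀ hw0.le hw1 2
  have hw3 : (ρ / q) ^ 3 ≤ 1.0252 ^ 3 := pow_le_pow_left₀ hw0.le hw1 3
  rw [radial_exp hρ hq h]
  have hA : 0 ≤ α ^ 2 * r ^ 2 := by positivity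
  constructor
  · rw [← neg_div]
    apply div_le_div_of_nonneg_right _ (by positivity)
    have h1 : (ρ - q) ^ 2 * ((ρ / q) ^ 3 / 2 + (ρ / q) ^ 2 + 2 * (ρ / q) + 1)
        ≤ (α ^ 2 * r ^ 2) * (1.0252 ^ 3 / 2 + 1.0252 ^ 2 + 2 * 1.0252 + 1) := by
      apply mul_le_mul hd _ (by positivity) hA
      linarith
    have h2 : 0 ≤ α ^ 2 * r ^ 2 * (ρ / q) ^ 3 / 2 := by positivity
    nlinarith
  · apply div_le_div_of_nonneg_right _ (by positivity)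
    have h1 : 0 ≤ (ρ - q) ^ 2 * ((ρ / q) ^ 3 / 2 + (ρ / q) ^ 2 + 2 * (ρ / q) + 1) := by positivity
    have h2 : α ^ 2 * r ^ 2 * (ρ / q) ^ 3 ≤ α ^ 2 * r ^ 2 * 1.0252 ^ 3 := by gcongr
    nlinarith

lemma inv_exp {ρ q : ℝ} (hρ : 0 < ρ) (hq : 0 < q) :
    1 / q - 1 / ρ = -((q ^ 2 - ρ ^ 2) / (2 * ρ ^ 3))
      + (ρ - q) ^ 2 * (2 * (ρ / q) + 1) / (2 * ρ ^ 3) := by
  field_simp
  ring

variable {a b c : ℝ} {x y : ℂ}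

lemma sq_dist_p (β : ℝ) (hβ : 0 ≤ β) (x y : ℂ) :
    (‖y‖ - ‖y - β • x‖) ^ 2 ≤ β ^ 2 * ‖x‖ ^ 2 := by
  obtain ⟨h1, h2⟩ := dist_p β hβ x y
  have : |‖y‖ - ‖y - β • x‖| ≤ β * ‖x‖ := by rw [abs_le]; constructor <;> linarith
  calc _ = |‖y‖ - ‖y - β • x‖| ^ 2 := (sq_abs _).symm
    _ ≤ (β * ‖x‖) ^ 2 := pow_le_pow_left₀ (abs_nonneg _) this 2
    _ = β ^ 2 * ‖x‖ ^ 2 := by ring

lemma sq_dist_q (α : ℝ) (hα : 0 ≤ α) (x y : ℂ) :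
    (‖y‖ - ‖y + α • x‖) ^ 2 ≤ α ^ 2 * ‖x‖ ^ 2 := by
  have := sq_dist_p α hα (-x) y
  simpa using this

/-- radial perturbation, coarse -/
lemma dt_gF_coarse (h : MassB a b c) (hr : ‖x‖ ≤ 1.1) (hρ : 22.5 ≤ ‖y‖) :
    |dt y (gF a b c x y)| ≤ 2.8 * ‖x‖ ^ 2 / ‖y‖ ^ 3 := by
  have hx := norm_nonneg x
  have hy : 0 < ‖y‖ := by linarith
  have hy0 : y ≠ 0 := norm_pos_iff.mp hy
  have hβ : 0 ≤ a / (a + b) := by linarith [h.be1]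
  have hα : 0 ≤ b / (a + b) := by linarith [h.al1]
  have hab : a + b ≠ 0 := by linarith [h.m1]
  obtain ⟨p1, p2⟩ := dist_p (a / (a + b)) hβ x y
  obtain ⟨q1, q2⟩ := dist_q (b / (a + b)) hα x y
  have hb1 : a / (a + b) * ‖x‖ ≤ 0.500001 * 1.1 := mul_le_mul h.be2 hr hx (by norm_num)
  have hb2 : b / (a + b) * ‖x‖ ≤ 0.500001 * 1.1 := mul_le_mul h.al2 hr hx (by norm_num)
  rw [dt_gF c hab hy0]
  set β := a / (a + b) with hβd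
  set α := b / (a + b) with hαd
  have Eq1 := radial_bd (ρ := ‖y‖) (q := ‖y + α • x‖) (X := dt x y) (α := α) (r := ‖x‖) hy
    (by linarith) (normq_sq α x y) (sq_dist_q α hα x y)
  have Ep1 := radial_bd (ρ := ‖y‖) (q := ‖y - β • x‖) (X := dt x y) (α := -β) (r := ‖x‖) hy
    (by linarith) (by rw [normp_sq]; ring) (by rw [neg_sq]; exact sq_dist_p β hβ x y)
  have hq2 := normq_sq α x y
  have hp2 := normp_sq β x y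
  have hsum : β + α = 1 := h.sum
  set X := dt x y
  set Rr := ‖x‖
  set ρ := ‖y‖
  have hkq : kq a b x y = (‖y + α • x‖ ^ 3)⁻¹ := rfl
  have hkp : kp a b x y = (‖y - β • x‖ ^ 3)⁻¹ := rfl
  rw [hkq, hkp]
  set q := ‖y + α • x‖
  set p := ‖y - β • x‖
  rw [neg_sq] at Ep1
  have e1 : ρ ^ 2 + -β * X = ρ ^ 2 - β * X := by ring
  rw [e1] at Ep1
  set Tq := 1 / ρ - (q ^ 3)⁻¹ * (ρ ^ 2 + α * X)
  set Tp := 1 / ρ - (p ^ 3)⁻¹ * (ρ ^ 2 - β * X)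
  have hlin : β * ((q ^ 2 - ρ ^ 2) / ρ ^ 3) + α * ((p ^ 2 - ρ ^ 2) / ρ ^ 3)
      = α * β * Rr ^ 2 / ρ ^ 3 := by
    rw [hq2, hp2]
    have e2 : α = 1 - β := by linarith
    rw [e2]; ring
  have hαβ : α * β ≤ 0.500001 * 0.500001 := mul_le_mul h.al2 h.be2 hβ (by norm_num)
  have hM := h.M2
  have hM0 : 0 ≤ a + b + c := by linarith [h.M1]
  have hup : β * Tq + α * Tp ≤ 1.54 * (α * β * Rr ^ 2 / ρ ^ 3) := by
    have i1 := mul_le_mul_of_nonneg_left Eq1.2 hβ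
    have i2 := mul_le_mul_of_nonneg_left Ep1.2 hα
    have e3 : β * (0.54 * (α ^ 2 * Rr ^ 2) / ρ ^ 3) + α * (0.54 * (β ^ 2 * Rr ^ 2) / ρ ^ 3)
        = 0.54 * (α * β * Rr ^ 2 / ρ ^ 3) := by
      have e2 : α = 1 - β := by linarith
      rw [e2]; ring
    linarith
  have hlo : -(3.65 * (α * β * Rr ^ 2 / ρ ^ 3)) ≤ β * Tq + α * Tp := by
    have i1 := mul_le_mul_of_nonneg_left Eq1.1 hβ
    have i2 := mul_le_mul_of_nonneg_left Ep1.1 hα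
    have e3 : β * -(4.65 * (α ^ 2 * Rr ^ 2) / ρ ^ 3) + α * -(4.65 * (β ^ 2 * Rr ^ 2) / ρ ^ 3)
        = -(4.65 * (α * β * Rr ^ 2 / ρ ^ 3)) := by
      have e2 : α = 1 - β := by linarith
      rw [e2]; ring
    linarith
  have hN : 0 ≤ Rr ^ 2 / ρ ^ 3 := by positivity
  have hb3 : α * β * Rr ^ 2 / ρ ^ 3 ≤ 0.250002 * (Rr ^ 2 / ρ ^ 3) := by
    rw [mul_div_assoc]
    exact mul_le_mul_of_nonneg_right (hαβ.trans (by norm_num)) hN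
  have hb4 : 0 ≤ α * β * Rr ^ 2 / ρ ^ 3 := by positivity
  have habs : |β * Tq + α * Tp| ≤ 3.65 * (0.250002 * (Rr ^ 2 / ρ ^ 3)) := by
    rw [abs_le]; constructor <;> nlinarith
  rw [abs_mul, abs_of_nonneg hM0]
  calc (a + b + c) * |β * Tq + α * Tp| ≤ 3.000003 * (3.65 * (0.250002 * (Rr ^ 2 / ρ ^ 3))) := by
        gcongr
    _ ≤ 2.8 * (Rr ^ 2 / ρ ^ 3) := by nlinarith
    _ = 2.8 * Rr ^ 2 / ρ ^ 3 := by ring

/-- interaction energy -/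
lemma Wf_bound (h : MassB a b c) (hr : ‖x‖ ≤ 2) (hρ : 22.5 ≤ ‖y‖) :
    |Wf a b c x y| ≤ 0.6 * ‖x‖ ^ 2 / ‖y‖ ^ 3 := by
  have hx := norm_nonneg x
  have hy : 0 < ‖y‖ := by linarith
  have hβ : 0 ≤ a / (a + b) := by linarith [h.be1]
  have hα : 0 ≤ b / (a + b) := by linarith [h.al1]
  have hab : a + b ≠ 0 := by linarith [h.m1]
  have hm0 : 0 ≤ a + b := by linarith [h.m1]
  obtain ⟨p1, p2⟩ := dist_p (a / (a + b)) hβ x y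
  obtain ⟨q1, q2⟩ := dist_q (b / (a + b)) hα x y
  have hb1 : a / (a + b) * ‖x‖ ≤ 0.500001 * 2 := mul_le_mul h.be2 hr hx (by norm_num)
  have hb2 : b / (a + b) * ‖x‖ ≤ 0.500001 * 2 := mul_le_mul h.al2 hr hx (by norm_num)
  have hc := h.c2
  have hc0 : 0 ≤ c := by linarith [h.c1]
  have key : ∀ q s : ℝ, 0.955 * ‖y‖ ≤ q → (‖y‖ - q) ^ 2 ≤ s →
      0 ≤ 1 / q - 1 / ‖y‖ + (q ^ 2 - ‖y‖ ^ 2) / (2 * ‖y‖ ^ 3) ∧
      1 / q - 1 / ‖y‖ + (q ^ 2 - ‖y‖ ^ 2) / (2 * ‖y‖ ^ 3) ≤ 1.55 * s / ‖y‖ ^ 3 := by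
    intro q s hq hs
    have hq0 : 0 < q := lt_of_lt_of_le (by positivity) hq
    have hw0 : 0 < ‖y‖ / q := by positivity
    have hw1 : ‖y‖ / q ≤ 1.048 := by
      rw [div_le_iff₀ hq0]; nlinarith
    have hs0 : 0 ≤ s := le_trans (sq_nonneg _) hs
    rw [inv_exp hy hq0, neg_add_cancel_comm]
    refine ⟨by positivity, ?_⟩
    rw [div_le_div_iff₀ (by positivity) (by positivity)]
    have : (‖y‖ - q) ^ 2 * (2 * (‖y‖ / q) + 1) ≤ s * (2 * 1.048 + 1) := by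
      apply mul_le_mul hs (by linarith) (by positivity) hs0
    have h3 : 0 < ‖y‖ ^ 3 := by positivity
    nlinarith
  set β := a / (a + b) with hβd
  set α := b / (a + b) with hαd
  have hsum : β + α = 1 := h.sum
  obtain ⟨kq1, kq2⟩ := key ‖y + α • x‖ _ (by linarith) (sq_dist_q α hα x y)
  obtain ⟨kp1, kp2⟩ := key ‖y - β • x‖ _ (by linarith) (sq_dist_p β hβ x y)
  rw [normq_sq] at kq1 kq2
  rw [normp_sq] at kp1 kp2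
  have e : Wf a b c x y = c * (a + b) * (β * (1 / ‖y + α • x‖ - 1 / ‖y‖)
      + α * (1 / ‖y - β • x‖ - 1 / ‖y‖)) := by
    have ea : a = (a + b) * β := by rw [hβd]; field_simp
    have eb' : b = (a + b) * α := by rw [hαd]; field_simp
    have e1 : c * (a + b) * (β * (1 / ‖y + α • x‖ - 1 / ‖y‖) + α * (1 / ‖y - β • x‖ - 1 / ‖y‖))
        = c * ((a + b) * β * (1 / ‖y + α • x‖) + (a + b) * α * (1 / ‖y - β • x‖))
          - c * (a + b) * (β + α) * (1 / ‖y‖) := by ring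
    rw [e1, hsum, ← ea, ← eb', Wf]
    ring
  set ρ := ‖y‖
  set Rr := ‖x‖
  set X := dt x y
  set iq := 1 / ‖y + α • x‖ - 1 / ρ
  set ip := 1 / ‖y - β • x‖ - 1 / ρ
  have hlin : β * ((ρ ^ 2 + 2 * α * X + α ^ 2 * Rr ^ 2 - ρ ^ 2) / (2 * ρ ^ 3))
      + α * ((ρ ^ 2 - 2 * β * X + β ^ 2 * Rr ^ 2 - ρ ^ 2) / (2 * ρ ^ 3))
      = 0.5 * (α * β * Rr ^ 2 / ρ ^ 3) := by
    have e2 : α = 1 - β := by linarith
    rw [e2]; ring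
  have e3 : β * (1.55 * (α ^ 2 * Rr ^ 2) / ρ ^ 3) + α * (1.55 * (β ^ 2 * Rr ^ 2) / ρ ^ 3)
      = 1.55 * (α * β * Rr ^ 2 / ρ ^ 3) := by
    have e2 : α = 1 - β := by linarith
    rw [e2]; ring
  have i1 := mul_le_mul_of_nonneg_left kq1 hβ
  have i2 := mul_le_mul_of_nonneg_left kq2 hβ
  have i3 := mul_le_mul_of_nonneg_left kp1 hα
  have i4 := mul_le_mul_of_nonneg_left kp2 hα
  have hlo : -(0.5 * (α * β * Rr ^ 2 / ρ ^ 3)) ≤ β * iq + α * ip := by linarith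
  have hup : β * iq + α * ip ≤ 1.05 * (α * β * Rr ^ 2 / ρ ^ 3) := by linarith
  have hαβ : α * β ≤ 0.500001 * 0.500001 := mul_le_mul h.al2 h.be2 hβ (by norm_num)
  have hN : 0 ≤ Rr ^ 2 / ρ ^ 3 := by positivity
  have hb3 : α * β * Rr ^ 2 / ρ ^ 3 ≤ 0.250002 * (Rr ^ 2 / ρ ^ 3) := by
    rw [mul_div_assoc]
    exact mul_le_mul_of_nonneg_right (hαβ.trans (by norm_num)) hN
  have hb4 : 0 ≤ α * β * Rr ^ 2 / ρ ^ 3 := by positivity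
  have habs : |β * iq + α * ip| ≤ 1.05 * (0.250002 * (Rr ^ 2 / ρ ^ 3)) := by
    rw [abs_le]; constructor <;> nlinarith
  rw [e, abs_mul, abs_of_nonneg (by positivity : 0 ≤ c * (a + b))]
  have hcm : c * (a + b) ≤ 1.000001 * 2.000002 := by
    apply mul_le_mul hc h.m2 hm0 (by norm_num)
  calc c * (a + b) * |β * iq + α * ip|
      ≤ 1.000001 * 2.000002 * (1.05 * (0.250002 * (Rr ^ 2 / ρ ^ 3))) := by gcongr
    _ ≤ 0.6 * (Rr ^ 2 / ρ ^ 3) := by nlinarith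
    _ = 0.6 * Rr ^ 2 / ρ ^ 3 := by ring

end Pool.Agent.Helper35TB
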