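import Mathlib

set_option autoImplicit false

/-!
# FAR: the two real inequalities behind the drift bounds (no corrector, S-lemma type)
-/

namespace Pool.Agent.HM.FAR

noncomputable section

/-- the variables: m = sum of the tight masses, c = outer mass, l = |rho x rho'|, e = eccentricity,
r = pair distance, s = rho.rho' (up to sign), (C, D) = direction of the Laplace vector relative to
the outer body, k1, k2 = correction factors (near 1), d = tiny -/
structure IneqHyp (m c l e r s C D k1 k2 d : ℝ) : Prop where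
  hm : |m - 2| ≤ 1 / 10 ^ 5
  hc : |c - 1| ≤ 1 / 10 ^ 5
  hl1 : 0.0884 ≤ l
  hl2 : l ≤ 0.1006
  he0 : 0 < e
  he1 : 0.98986 ≤ e ^ 2
  he2 : e ^ 2 ≤ 0.99222
  hr0 : 0 < r
  hr1 : r ≤ 1.0006
  hs : s ^ 2 ≤ 4.00002 * r - 3.996 * r ^ 2 - 0.0078
  hCD : C ^ 2 + D ^ 2 = 1
  hneg : C * D < 0
  hC1 : 0.0790 ≤ |C|
  hC2 : |C| ≤ 0.1173
  hk1 : |k1 - 1| ≤ 0.0045
  hk2 : |k2 - 1| ≤ 0.015
  hd : |d| ≤ 1 / 10 ^ 5

/-- component of rho along the outer direction -/
def Pf (m l e r s C D : ℝ) : ℝ := (-(r - l ^ 2 / m) * C - l * s / m * D) / e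
/-- component of rho across the outer direction -/
def Qf (m l e r s C D : ℝ) : ℝ := (-(r - l ^ 2 / m) * D + l * s / m * C) / e
/-- torque times R^3 -/
def FLf (m c l e r s C D k1 d : ℝ) : ℝ :=
  3 * c * k1 * (Pf m l e r s C D + d) * Qf m l e r s C D
/-- tidal force along the Laplace vector times R^3 -/
def Aff (m c l e r s C D k1 k2 d : ℝ) : ℝ :=
  c * (3 * k1 * (Pf m l e r s C D + d) * C * e + k2 * (r - l ^ 2 / m))
/-- drift rate of the angle times R^3 (sv = radial velocity of the outer body) -/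
def Gf (m c l e r s C D k1 k2 d kh sv : ℝ) : ℝ :=
  (FLf m c l e r s C D k1 d * s / r + l * Aff m c l e r s C D k1 k2 d) / (m * e ^ 2)
    + kh * sv * FLf m c l e r s C D k1 d

/-- I1. True range (random sampling): [-0.3773, 0.0215]. With κ = -C D, R1 = r - l²/m, ζ = l s/m,
`P Q e² = -κ (R1² - ζ²) + R1 ζ (D² - C²)`; then arithmetic-geometric mean for `r |s|`. -/
def Ineq1Stmt : Prop := ∀ m c l e r s C D k1 k2 d : ℝ, IneqHyp m c l e r s C D k1 k2 d →
  -0.3855 ≤ FLf m c l e r s C D k1 d ∧ FLf m c l e r s C D k1 d ≤ 0.033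

/-- I2. True range (random sampling): [-0.0606, 0.2423].
`P Q s / r e² = -κ r s + (l/m) (D² - C²) s² + error`, the error is at most 0.0034 because
`|R1| ≤ r`, `R1²/r ∈ [r - 2 l²/m, r]`, `ζ²/r ≤ 2 l²/m` (all from `l² ≤ 2.0001 m r`, a consequence
of `hs` and `s² ≥ 0`), and `l A = l R1 (k2 - 3 k1 C²) + 3 k1 κ l ζ + ...`. -/
def Ineq2Stmt : Prop := ∀ m c l e r s C D k1 k2 d kh sv : ℝ, IneqHyp m c l e r s C D k1 k2 d →
  |kh - 0.25| ≤ 0.0003 → |sv| ≤ 0.505 → l ^ 2 ≤ 2.0001 * m * r →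
  -0.0745 ≤ Gf m c l e r s C D k1 k2 d kh sv ∧ Gf m c l e r s C D k1 k2 d kh sv ≤ 0.262

end

end Pool.Agent.HM.FAR
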