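import Pool.Agent.Helper35_TB.Deriv

set_option autoImplicit false

namespace Pool.Agent.Helper35TB

open Set

/-- comparison: if f' <= k g' then f - k g does not increase -/
lemma sub_le_of_deriv_le {f g f' g' : ℝ → ℝ} {T k : ℝ}
    (hf : ∀ t ∈ Icc (0 : ℝ) T, HasDerivAt f (f' t) t)
    (hg : ∀ t ∈ Icc (0 : ℝ) T, HasDerivAt g (g' t) t)
    (h : ∀ t ∈ Icc (0 : ℝ) T, f' t ≤ k * g' t) {s t : ℝ} (hs : 0 ≤ s) (hst : s ≤ t) (ht : t ≤ T) :
    f t - f s ≤ k * (g t - g s) := by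
  have hd : ∀ τ ∈ Icc (0 : ℝ) T, HasDerivAt (fun τ => f τ - k * g τ) (f' τ - k * g' τ) τ :=
    fun τ hτ => (hf τ hτ).sub ((hg τ hτ).const_mul k)
  have ha : AntitoneOn (fun τ => f τ - k * g τ) (Icc 0 T) := by
    refine antitoneOn_of_hasDerivWithinAt_nonpos (convex_Icc 0 T)
      (fun τ hτ => (hd τ hτ).continuousAt.continuousWithinAt)
      (f' := fun τ => f' τ - k * g' τ) (fun τ hτ => ?_) (fun τ hτ => ?_)
    · exact (hd τ (interior_subset hτ)).hasDerivWithinAt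
    · have := h τ (interior_subset hτ); linarith
  have := ha ⟨hs, hst.trans ht⟩ ⟨hs.trans hst, ht⟩ hst
  simp only at this
  linarith

/-- two-sided version -/
lemma abs_sub_le_of_deriv_le {f g f' g' : ℝ → ℝ} {T k : ℝ}
    (hf : ∀ t ∈ Icc (0 : ℝ) T, HasDerivAt f (f' t) t)
    (hg : ∀ t ∈ Icc (0 : ℝ) T, HasDerivAt g (g' t) t)
    (h : ∀ t ∈ Icc (0 : ℝ) T, |f' t| ≤ k * g' t) {s t : ℝ} (hs : 0 ≤ s) (hst : s ≤ t) (ht : t ≤ T) :
    |f t - f s| ≤ k * (g t - g s) := by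
  rw [abs_le]
  have h1 := sub_le_of_deriv_le hf hg (fun τ hτ => (abs_le.mp (h τ hτ)).2) hs hst ht
  have h2 := sub_le_of_deriv_le (f := fun τ => -f τ) (f' := fun τ => -f' τ) (k := k)
    (fun τ hτ => (hf τ hτ).neg) hg
    (fun τ hτ => by have := (abs_le.mp (h τ hτ)).1; linarith) hs hst ht
  constructor <;> linarith

/-- continuity induction -/
lemma cont_induction {h : ℝ → ℝ} {T : ℝ} (hc : ContinuousOn h (Icc 0 T))
    (hstep : ∀ t ∈ Icc (0 : ℝ) T, (∀ s ∈ Icc (0 : ℝ) t, 0 ≤ h s) → 0 < h t)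
    (h0 : 0 ≤ h 0) : ∀ t ∈ Icc (0 : ℝ) T, 0 < h t := by
  by_contra hcon
  push Not at hcon
  obtain ⟨t1, ht1, hh1⟩ := hcon
  have hsub : Icc (0 : ℝ) t1 ⊆ Icc 0 T := Icc_subset_Icc_right ht1.2
  let B : Set ℝ := Icc 0 t1 ∩ {t | h t ≤ 0}
  have hBc : IsClosed B := (hc.mono hsub).preimage_isClosed_of_isClosed isClosed_Icc isClosed_Iic
  have hBne : B.Nonempty := ⟨t1, ⟨ht1.1, le_refl _⟩, hh1⟩
  have hBb : BddBelow B := ⟨0, fun t ht => ht.1.1⟩
  have hmem : sInf B ∈ B := hBc.csInf_mem hBne hBb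
  set τ := sInf B with hτ
  have hpos : ∀ s ∈ Ico (0 : ℝ) τ, 0 < h s := by
    intro s hs
    by_contra hle
    push Not at hle
    have : s ∈ B := ⟨⟨hs.1, hs.2.le.trans hmem.1.2⟩, hle⟩
    exact absurd (csInf_le hBb this) (not_le.mpr hs.2)
  have hτT : τ ∈ Icc (0 : ℝ) T := hsub hmem.1
  have h0τ : 0 ≤ h τ := by
    rcases eq_or_lt_of_le hmem.1.1 with h0' | h0'
    · rw [← h0']; exact h0
    · have hcl : τ ∈ closure (Ico (0 : ℝ) τ) := by
        rw [closure_Ico h0'.ne]; exact ⟨h0'.le, le_refl _⟩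
      have hcw : ContinuousWithinAt h (Ico 0 τ) τ :=
        (hc τ hτT).mono (fun s hs => ⟨hs.1, hs.2.le.trans hτT.2⟩)
      have : (nhdsWithin τ (Ico 0 τ)).NeBot := mem_closure_iff_nhdsWithin_neBot.mp hcl
      exact ge_of_tendsto hcw
        (Filter.eventually_of_mem self_mem_nhdsWithin fun s hs => (hpos s hs).le)
  have := hstep τ hτT (fun s hs => by
    rcases eq_or_lt_of_le hs.2 with h1 | h1
    · rw [h1]; exact h0τ
    · exact (hpos s ⟨hs.1, h1⟩).le)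
  exact absurd hmem.2 (not_le.mpr this)

end Pool.Agent.Helper35TB
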