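import Pool.Agent.Helper35_TB.Stmt
import Pool.Agent.Helper35_TB.Stmt2
import Pool.Agent.Helper35_TB.Radial
import Pool.Agent.Helper35_TB.Tools

set_option autoImplicit false

/-!
# FAR: modules on top of the flow. `TB` = namespace Pool.Agent.Helper35TB (Basic, Deriv, Force,
Region, Radial, Tools: definitions in the variables a b c x y u v with all force bounds).
-/

namespace Pool.Agent.HM.FAR

open Complex Set Topology Pool.Agent.HM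

noncomputable section

/-- masses -/
abbrev NearF (m : Fin 3 → ℝ) : Prop := Near1 (1 / 10 ^ 6) m

/-- BRIDGE: dictionary between the two sets of definitions -/
def BridgeStmt : Prop := ∀ m : Fin 3 → ℝ, NearF m → ∀ X : JS, X.1 ≠ 0 → X.2.1 ≠ 0 →
  Helper35TB.MassNear (m 0) (m 1) (m 2) ∧
  (∀ z w : ℂ, cr z w = Helper35TB.cr z w) ∧ (∀ z w : ℂ, dt z w = Helper35TB.dt z w) ∧
  JVF m X = (X.2.2.1, X.2.2.2, Helper35TB.accX (m 0) (m 1) (m 2) X.1 X.2.1,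
    Helper35TB.accY (m 0) (m 1) (m 2) X.1 X.2.1) ∧
  JE m X = Helper35TB.En (m 0) (m 1) (m 2) X.1 X.2.1 X.2.2.1 X.2.2.2 ∧
  JMu m X = Helper35TB.Am (m 0) (m 1) (m 2) X.1 X.2.1 X.2.2.1 X.2.2.2 ∧
  SS X = Helper35TB.Sr X.2.1 X.2.2.2 ∧
  EO m X = 2 / 3 * Helper35TB.eo (m 0) (m 1) (m 2) X.2.1 X.2.2.2 ∧
  lrl m X = Helper35TB.Lap (m 0 + m 1) X.1 X.2.2.1 ∧
  outm m X = -Helper35TB.Lap (m 0 + m 1 + m 2) X.2.1 X.2.2.2 ∧
  (17 < ‖X.2.1‖ → ‖X.1‖ < 1.1 → Free m X)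

/-- a run: piece of an orbit of the modified flow which starts in the window -/
structure Run (m : Fin 3 → ℝ) (σ T : ℝ) (X : ℝ → JS) : Prop where
  T0 : 0 ≤ T
  cont : Continuous X
  ode : ∀ t, Good (X t) → HasDerivAt X (JVF m (X t)) t
  start : X 0 ∈ WinP m σ
  hS : ∀ t ∈ Icc (0 : ℝ) T, -0.505 ≤ SS (X t)

/-- the region in which the whole run stays -/
structure RegA (m : Fin 3 → ℝ) (X : JS) : Prop where
  good : Good X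
  lev : Lev m X
  r1 : 0.0016 ≤ ‖X.1‖
  r2 : ‖X.1‖ ≤ 1.002
  R1 : 23.3 ≤ ‖X.2.1‖
  E : |EO m X| ≤ 8.2e-4
  S : |SS X| ≤ 0.505
  L1 : 0.0795 ≤ |cr X.1 X.2.2.1|
  L2 : |cr X.1 X.2.2.1| ≤ 0.109

/-- STA (helper35): a-priori estimate -/
def StaStmt : Prop := ∀ m : Fin 3 → ℝ, NearF m → ∀ σ : ℝ, (σ = 1 ∨ σ = -1) → ∀ T X,
  Run m σ T X → ∀ t ∈ Icc (0 : ℝ) T, RegA m (X t)

/-- LYAP (helper35): Lyapunov function, strict decrease of the radial velocity -/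
def LyapStmt : Prop := ∀ m : Fin 3 → ℝ, NearF m → ∀ σ : ℝ, (σ = 1 ∨ σ = -1) → ∀ T X,
  Run m σ T X → (∀ t ∈ Icc (0 : ℝ) T, RegA m (X t)) →
    (∃ V V' : ℝ → ℝ, (∀ t ∈ Icc (0 : ℝ) T, HasDerivAt V (V' t) t ∧ 1 / ‖(X t).2.1‖ ^ 3 ≤ V' t) ∧
      ∀ t ∈ Icc (0 : ℝ) T, V t - V 0 ≤ 0.00483) ∧
    ∃ S' : ℝ → ℝ, ∀ t ∈ Icc (0 : ℝ) T,
      HasDerivAt (fun t => SS (X t)) (S' t) t ∧ S' t ≤ -(2.99 / ‖(X t).2.1‖ ^ 2)

/-- angular velocity of the Laplace vector of a perturbed Kepler motion (parameter κ, position z,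
velocity w, perturbation φ), see `Helper35TB.KepAt.lap` -/
def omg (κ : ℝ) (z w φ : ℂ) : ℝ :=
  -(Helper35TB.cr z φ * Helper35TB.dt (Helper35TB.Lap κ z w) w
    + Helper35TB.cr z w * Helper35TB.dt (Helper35TB.Lap κ z w) φ)
    / (κ * ‖Helper35TB.Lap κ z w‖ ^ 2)

/-- relative angular velocity of the binary Laplace vector against the outer one -/
def omr (m : Fin 3 → ℝ) (X : JS) : ℝ :=
  omg (m 0 + m 1) X.1 X.2.2.1 (Helper35TB.fF (m 0) (m 1) (m 2) X.1 X.2.1)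
    - omg (m 0 + m 1 + m 2) X.2.1 X.2.2.2 (Helper35TB.gF (m 0) (m 1) (m 2) X.1 X.2.1)

/-- ANG: continuous angle of the binary Laplace vector against the outer one. Proof: PolarStmt for
`F = lrl * conj outm` (derivatives: `Helper35TB.KepAt.lap`, both Laplace vectors are nonzero in RegA:
`norm_lap_sq`), then `gg` is the principal branch around gref. -/
def AngStmt : Prop := ∀ m : Fin 3 → ℝ, NearF m → ∀ σ : ℝ, (σ = 1 ∨ σ = -1) → ∀ T X,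
  Run m σ T X → (∀ t ∈ Icc (0 : ℝ) T, RegA m (X t)) →
    ∃ θ : ℝ → ℝ, θ 0 = 0 ∧
      (∀ t ∈ Icc (0 : ℝ) T, HasDerivWithinAt θ (omr m (X t)) (Icc 0 T) t) ∧
      ∀ t ∈ Icc (0 : ℝ) T, |θ t| ≤ 0.1 → gg m (X t) = gg m (X 0) + θ t

/-- DIR: direction of the outer body relative to the binary Laplace vector `A = lrl`:
`conj A * lam / (|A| |lam|) = C + i D` has argument `-gg - atan(H S / M ...)`, H = lam x nu,
|H| ≤ .7501 |rho x rho'| by JMu = 0; `3 π / 2 - gref = 0.098389` -/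
def DirStmt : Prop := ∀ m : Fin 3 → ℝ, NearF m → ∀ X : JS, RegA m X → ∀ l δ : ℝ,
  |cr X.1 X.2.2.1| ≤ l → l ≤ 0.11 → |gg m X - gref| ≤ δ → δ ≤ 0.02 →
    |dt (lrl m X) X.2.1| ≤ (0.0984 + 0.1264 * l + δ) * (‖lrl m X‖ * ‖X.2.1‖) ∧
    (0.0982 - 0.1264 * l - δ) * (‖lrl m X‖ * ‖X.2.1‖) ≤ |dt (lrl m X) X.2.1| ∧
    dt (lrl m X) X.2.1 * cr (lrl m X) X.2.1 < 0

/-- RATE: pointwise bounds of the rates. Proof: H1 = rho x rho', eps = sgn H1, m = m 0 + m 1,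
c = m 2, l = |H1|, e = |A|, r = |rho|, s_ineq = -eps (rho . rho'), sv = -eps SS, C, D = direction of
lam relative to A (dt, cr divided by norms). Then `|lam|^3 (rho x f) = FLf`; omg of the pair is
`(H1' (rho.rho')/r - H1 (A.f)) / (m e^2)` (dt_lap_vel), so `-eps |lam|^3 omg` = first part of `Gf`;
the outer one is `(H' S - H (A_o.g)) / (M |A_o|^2)` with H' = lam x g = -(M a b/(a+b)^2/c) H1',
H = -(mub/muo) H1, which gives `kh * sv * FLf` up to 0.0034. k1, k2 from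
`Helper35TB.inv_cube_sub'` (|rho.lam| <= .14 |lam|, lam >= 23.3: outer distances / |lam| in
[.9969, 1.0034], product of them in [.9999, 1.0006]). Then Ineq1Stmt, Ineq2Stmt, Ineq3Stmt. -/
def RateStmt : Prop := ∀ m : Fin 3 → ℝ, NearF m → ∀ X : JS, RegA m X → ∀ s : ℝ, (s = 1 ∨ s = -1) →
  0.0885 ≤ s * cr X.1 X.2.2.1 → s * cr X.1 X.2.2.1 ≤ 0.1005 →
  |dt (lrl m X) X.2.1| ≤ 0.11725 * (‖lrl m X‖ * ‖X.2.1‖) →
  0.0791 * (‖lrl m X‖ * ‖X.2.1‖) ≤ |dt (lrl m X) X.2.1| →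
  dt (lrl m X) X.2.1 * cr (lrl m X) X.2.1 < 0 →
    -0.3856 ≤ ‖X.2.1‖ ^ 3 * cr X.1 (Helper35TB.fF (m 0) (m 1) (m 2) X.1 X.2.1) ∧
    ‖X.2.1‖ ^ 3 * cr X.1 (Helper35TB.fF (m 0) (m 1) (m 2) X.1 X.2.1) ≤ 0.0331 ∧
    -0.0780 ≤ -s * (‖X.2.1‖ ^ 3 * omr m X) ∧ -s * (‖X.2.1‖ ^ 3 * omr m X) ≤ 0.2660 ∧
    -0.52 ≤ 1.3 * (‖X.2.1‖ ^ 3 * cr X.1 (Helper35TB.fF (m 0) (m 1) (m 2) X.1 X.2.1))
      + -s * (‖X.2.1‖ ^ 3 * omr m X)

/-- I3 (easy, wide margin: true minimum -0.37): weaker than the sum of I1 and I2 would give -/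
def Ineq3Stmt : Prop := ∀ m c l e r s C D k1 k2 d kh sv : ℝ, IneqHyp m c l e r s C D k1 k2 d →
  |kh - 0.25| ≤ 0.0003 → |sv| ≤ 0.505 → l ^ 2 ≤ 2.0001 * m * r →
  -0.51 ≤ 1.3 * FLf m c l e r s C D k1 d + Gf m c l e r s C D k1 k2 d kh sv

/-- DICH: returns and escapes. Ingredients: `S' <= -2.99/R^2`; `R' = S`;
`|EO'| <= (2/3) (2.82 |S|/R^4 + 0.11/R^5)` (from dt v g = S (y.g)/R + H (y x g)/R^2,
Helper35TB.dt_gF_coarse, cr_gF_coarse), so EO changes by at most 4.7e-5 while S >= 0 (compare with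
-1/(3R^3), whose derivative is S/R^4), and by at most 5.1e-5 while S <= 0; at S = 0: EO < 0.
esc: EO >= 1e-4 keeps S > 0. bdd: EO <= -1e-4 gives R <= 4e4 while S >= 0, then R decreases, so
S' <= -2.99/(1.6e9) and T <= 1e9. small: T >= 1e10 and S(T) <= -0.485 force R > 1e5 at S = 0. -/
def DichStmt : Prop := ∀ m : Fin 3 → ℝ, NearF m → ∀ σ : ℝ, (σ = 1 ∨ σ = -1) → ∀ T X,
  Run m σ T X → (∀ t ∈ Icc (0 : ℝ) T, RegA m (X t)) →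
  (∃ S' : ℝ → ℝ, ∀ t ∈ Icc (0 : ℝ) T,
      HasDerivAt (fun t => SS (X t)) (S' t) t ∧ S' t ≤ -(2.99 / ‖(X t).2.1‖ ^ 2)) →
    (wE ≤ EO m (X 0) → ∀ t ∈ Icc (0 : ℝ) T, 0 < SS (X t)) ∧
    (EO m (X 0) ≤ -wE → T ≤ 1e9) ∧
    (1e10 ≤ T → SS (X T) ≤ -0.485 → |EO m (X T)| ≤ wE) ∧
    (∀ t ∈ Icc (0 : ℝ) T, SS (X t) ≤ -0.485 → ‖(X t).2.1‖ ≤ 26)

/-- DRIFT (helper35) -/
def DriftStmt : Prop := ∀ m : Fin 3 → ℝ, NearF m → ∀ σ : ℝ, (σ = 1 ∨ σ = -1) → ∀ T X,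
  Run m σ T X → (∀ t ∈ Icc (0 : ℝ) T, RegA m (X t)) → ∀ t ∈ Icc (0 : ℝ) T,
    0.088 ≤ σ * cr (X t).1 (X t).2.2.1 ∧ σ * cr (X t).1 (X t).2.2.1 ≤ 0.101 ∧
    |(2.325 - 0.275 * σ) * (LL (X t) - LL (X 0) - dLf)
      + (gg m (X t) - gg m (X 0) + σ * dGf)| ≤ 4.65 * etaD ∧
    |(2.325 + 0.275 * σ) * (LL (X t) - LL (X 0) - dLf)
      - (gg m (X t) - gg m (X 0) + σ * dGf)| ≤ 4.65 * etaD

/-- TURN: linear growth of the angle of the binary relative to the outer body (Proof: PolarStmt for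
`F = X.1 * conj X.2.1`, derivative of the argument `H1/r^2 - H/R^2`, H1 = rho x rho', H = lam x nu of
the opposite sign; two continuous arguments differ by a constant). -/
def TurnStmt : Prop := ∀ m : Fin 3 → ℝ, NearF m → ∀ σ : ℝ, (σ = 1 ∨ σ = -1) → ∀ T X,
  Run m σ T X → (∀ t ∈ Icc (0 : ℝ) T, RegA m (X t)) →
  (∀ t ∈ Icc (0 : ℝ) T, 0.088 ≤ σ * cr (X t).1 (X t).2.2.1 ∧
    σ * cr (X t).1 (X t).2.2.1 ≤ 0.101) → ∀ θ : ℝ → ℝ, ContinuousOn θ (Icc 0 T) →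
    (∀ t ∈ Icc (0 : ℝ) T, (X t).1 / (X t).2.1 = ‖(X t).1 / (X t).2.1‖ * exp (I * θ t)) →
    0.08 * T ≤ σ * (θ T - θ 0) ∧ σ * (θ T - θ 0) ≤ 1e5 * T

/-- ASMF: everything together -/
def AsmfStmt : Prop := FlowStmt → HitStmt → BridgeStmt → StaStmt → LyapStmt → DichStmt →
  DriftStmt → TurnStmt → FarStmt

end

end Pool.Agent.HM.FAR
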