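import Pool.Agent.Helper35_TB.Drift
import Pool.Agent.Helper34_HM.FarRate
import Pool.Agent.Helper34_HM.FarBridge
import Pool.Agent.Helper46_HM.ConsPt
import Pool.Agent.Helper46_HM.FarDir
import Pool.Agent.Helper46_HM.Hit
import Pool.Agent.Helper46_HM.Ineq2
import Pool.Agent.Helper46_HM.Ineq3
import Pool.Agent.Helper46_HM.Polar
import Pool.Agent.Helper54_HM.FarAng
import Pool.Agent.Helper54_HM.FarTurn
import Pool.Agent.Helper85_HM.FarAsmf
import Pool.Agent.Helper85_HM.FarDich
import Pool.Agent.Helper85_HM.Flow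
import Pool.Agent.Helper87_HM.Ineq1

set_option autoImplicit false

namespace Pool.Agent.HM.FAR

/-- FAR: the far excursions -/
theorem far : FarStmt :=
  H85.asmf HM.H85.flow HM.H46.hit H34.bridge (sta HM.H46.consPt H34.bridge)
    (lyap HM.H46.consPt H34.bridge) (H85.dich H34.bridge)
    (drift HM.H46.consPt H34.bridge (H54F.ang HM.H46.polar H34.bridge) (H46.dir H34.bridge)
      (H34.rate HM.H87.ineq1 HM.H46.ineq2 HM.H46.ineq3 H34.bridge))
    (H54F.turn HM.H46.polar H34.bridge)

end Pool.Agent.HM.FAR
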