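import Pool.Agent.Helper35_TB.Basic

set_option autoImplicit false

namespace Pool.Agent.Helper35TB

open Set

/-- inverse cubes of the two outer distances -/
noncomputable def kp (a b : ℝ) (x y : ℂ) : ℝ := (‖y - (a / (a + b)) • x‖ ^ 3)⁻¹
noncomputable def kq (a b : ℝ) (x y : ℂ) : ℝ := (‖y + (b / (a + b)) • x‖ ^ 3)⁻¹

lemma cr_fF (a b c : ℝ) (x y : ℂ) :
    cr x (fF a b c x y) = c * (kp a b x y - kq a b x y) * cr x y := by
  simp only [cr, fF, kp, kq, Complex.sub_re, Complex.sub_im, Complex.add_re, Complex.add_im,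
    smul_re', smul_im', K_re, K_im]
  ring

lemma dt_fF (a b c : ℝ) (A x y : ℂ) :
    dt A (fF a b c x y) = c * ((kp a b x y - kq a b x y) * dt A y
      - (a / (a + b) * kp a b x y + b / (a + b) * kq a b x y) * dt A x) := by
  simp only [dt, fF, kp, kq, Complex.sub_re, Complex.sub_im, Complex.add_re, Complex.add_im,
    smul_re', smul_im', K_re, K_im]
  ring

lemma cr_gF (a b c : ℝ) (x y : ℂ) :
    cr y (gF a b c x y) = (a + b + c) * (a / (a + b)) * (b / (a + b))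
      * (kq a b x y - kp a b x y) * cr x y := by
  simp only [cr, gF, kp, kq, Complex.sub_re, Complex.sub_im, Complex.add_re, Complex.add_im,
    smul_re', smul_im', K_re, K_im]
  ring

lemma dt_gF {a b : ℝ} (c : ℝ) {x y : ℂ} (hab : a + b ≠ 0) (hy : y ≠ 0) :
    dt y (gF a b c x y) = (a + b + c) * (a / (a + b) * (1 / ‖y‖
        - kq a b x y * (‖y‖ ^ 2 + b / (a + b) * dt x y))
      + b / (a + b) * (1 / ‖y‖ - kp a b x y * (‖y‖ ^ 2 - a / (a + b) * dt x y))) := by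
  have h1 : ‖y‖ ≠ 0 := norm_ne_zero_iff.mpr hy
  have h2 : a / (a + b) * (1 / ‖y‖) + b / (a + b) * (1 / ‖y‖) = 1 / ‖y‖ := by
    field_simp
  have h3 : (‖y‖ ^ 3)⁻¹ * dt y y = 1 / ‖y‖ := by
    rw [← norm_sq_eq]; field_simp
  have h4 : dt y (gF a b c x y) = (a + b + c) * ((‖y‖ ^ 3)⁻¹ * dt y y)
      - (a + b + c) * (a / (a + b) * (kq a b x y * (dt y y + b / (a + b) * dt x y))
        + b / (a + b) * (kp a b x y * (dt y y - a / (a + b) * dt x y))) := by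
    simp only [dt, gF, kp, kq, Complex.sub_re, Complex.sub_im, Complex.add_re, Complex.add_im,
      smul_re', smul_im', K_re, K_im]
    ring
  rw [h4, h3, ← norm_sq_eq]
  linear_combination (-(a + b + c)) * h2

lemma normp_sq (β : ℝ) (x y : ℂ) :
    ‖y - β • x‖ ^ 2 = ‖y‖ ^ 2 - 2 * β * dt x y + β ^ 2 * ‖x‖ ^ 2 := by
  rw [norm_sq_eq, norm_sq_eq, norm_sq_eq]
  simp only [dt, Complex.sub_re, Complex.sub_im, smul_re', smul_im']
  ring

lemma normq_sq (α : ℝ) (x y : ℂ) :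
    ‖y + α • x‖ ^ 2 = ‖y‖ ^ 2 + 2 * α * dt x y + α ^ 2 * ‖x‖ ^ 2 := by
  rw [norm_sq_eq, norm_sq_eq, norm_sq_eq]
  simp only [dt, Complex.add_re, Complex.add_im, smul_re', smul_im']
  ring

/-- pure real estimate: difference of inverse cubes -/
lemma inv_cube_sub {p q ρ l h Δ : ℝ} (hρ : 0 < ρ) (hl : 0 < l) (hp1 : l * ρ ≤ p) (hp2 : p ≤ h * ρ)
    (hq1 : l * ρ ≤ q) (hq2 : q ≤ h * ρ) (hΔ : q ^ 2 - p ^ 2 = 2 * Δ) :
    ∃ κ : ℝ, l / h ^ 6 ≤ κ ∧ κ ≤ h / l ^ 6 ∧ (p ^ 3)⁻¹ - (q ^ 3)⁻¹ = 3 * Δ * κ / ρ ^ 5 := by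
  have hlρ : 0 < l * ρ := mul_pos hl hρ
  have hp : 0 < p := lt_of_lt_of_le hlρ hp1
  have hq : 0 < q := lt_of_lt_of_le hlρ hq1
  have hh : 0 < h := by
    by_contra hh
    push Not at hh
    nlinarith
  have hs : 0 < q + p := by linarith
  refine ⟨(2 / 3) * ρ ^ 5 * (q ^ 2 + q * p + p ^ 2) / ((q + p) * (p ^ 3 * q ^ 3)), ?_, ?_, ?_⟩
  · rw [div_le_div_iff₀ (by positivity) (by positivity)]
    have e1 : p ^ 3 * q ^ 3 ≤ (h * ρ) ^ 3 * (h * ρ) ^ 3 := by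
      have := pow_le_pow_left₀ hp.le hp2 3
      have := pow_le_pow_left₀ hq.le hq2 3
      gcongr
    have e2 : l * ρ * (q + p) * (3 / 2) ≤ q ^ 2 + q * p + p ^ 2 := by
      nlinarith [mul_nonneg (sub_nonneg.mpr hp1) hp.le, mul_nonneg (sub_nonneg.mpr hq1) hq.le,
        mul_nonneg (sub_nonneg.mpr hp1) hq.le, mul_nonneg (sub_nonneg.mpr hq1) hp.le]
    calc l * ((q + p) * (p ^ 3 * q ^ 3)) ≤ l * ((q + p) * ((h * ρ) ^ 3 * (h * ρ) ^ 3)) := by gcongr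
      _ = 2 / 3 * ρ ^ 5 * (l * ρ * (q + p) * (3 / 2)) * h ^ 6 := by ring
      _ ≤ 2 / 3 * ρ ^ 5 * (q ^ 2 + q * p + p ^ 2) * h ^ 6 := by gcongr
  · rw [div_le_div_iff₀ (by positivity) (by positivity)]
    have e1 : (l * ρ) ^ 3 * (l * ρ) ^ 3 ≤ p ^ 3 * q ^ 3 := by
      have := pow_le_pow_left₀ hlρ.le hp1 3
      have := pow_le_pow_left₀ hlρ.le hq1 3
      gcongr
    have e2 : q ^ 2 + q * p + p ^ 2 ≤ h * ρ * (q + p) * (3 / 2) := by
      nlinarith [mul_nonneg (sub_nonneg.mpr hp2) hp.le, mul_nonneg (sub_nonneg.mpr hq2) hq.le,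
        mul_nonneg (sub_nonneg.mpr hp2) hq.le, mul_nonneg (sub_nonneg.mpr hq2) hp.le]
    calc 2 / 3 * ρ ^ 5 * (q ^ 2 + q * p + p ^ 2) * l ^ 6
        ≤ 2 / 3 * ρ ^ 5 * (h * ρ * (q + p) * (3 / 2)) * l ^ 6 := by gcongr
      _ = h * ((q + p) * ((l * ρ) ^ 3 * (l * ρ) ^ 3)) := by ring
      _ ≤ h * ((q + p) * (p ^ 3 * q ^ 3)) := by gcongr
  · have hΔ' : Δ = (q ^ 2 - p ^ 2) / 2 := by linarith
    rw [hΔ']
    field_simp
    ring

/-- pure real estimate for the radial perturbation: w = ρ/q -/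
lemma radial_aux {w : ℝ} (hw : 0 < w) :
    1 - (w ^ 3 + w) / 2 = (1 - w ^ 2) / w ^ 2
      - (w - 1) ^ 2 * (w ^ 3 / 2 + w ^ 2 + 2 * w + 1) / w ^ 2 := by
  field_simp
  ring

end Pool.Agent.Helper35TB
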