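import Pool.Agent.Helper35_TB.Sta

set_option autoImplicit false

namespace Pool.Agent.Helper35TB

open Set

section

variable {a b c T : ℝ} {x y u v : ℝ → ℂ}

lemma TRun.S0_le (R : TRun a b c T x y u v) (h : MassB a b c) : Sr (y 0) (v 0) ≤ 0.5018 := by
  have hρ := R.ρ0
  have hy0 : 0 < ‖y 0‖ := by linarith
  have h6 : ‖v 0‖ ^ 2 = 2 * eo a b c (y 0) (v 0) + 2 * ((a + b + c) / ‖y 0‖) := by rw [eo]; ring
  rw [v_sq hy0] at h6
  have h7 : (a + b + c) / ‖y 0‖ ≤ 0.12500013 := by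
    rw [div_le_iff₀ hy0]; nlinarith [h.M2]
  have h8 : 0 ≤ cr (y 0) (v 0) ^ 2 / ‖y 0‖ ^ 2 := by positivity
  have h9 := (abs_le.mp R.e0).2
  have h10 : Sr (y 0) (v 0) ^ 2 ≤ 0.5018 ^ 2 := by norm_num at h9 ⊢; linarith
  exact (abs_le_of_sq_le_sq' h10 (by norm_num)).2

/-- Lyapunov function of a run -/
lemma TRun.lyap (R : TRun a b c T x y u v) (h : MassB a b c) :
    (∃ V V' : ℝ → ℝ, (∀ t ∈ Icc (0 : ℝ) T, HasDerivAt V (V' t) t ∧ 1 / ‖y t‖ ^ 3 ≤ V' t) ∧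
      ∀ t ∈ Icc (0 : ℝ) T, V t - V 0 ≤ 0.00483) ∧
    ∀ t ∈ Icc (0 : ℝ) T, HasDerivAt (fun t => Sr (y t) (v t)) (dS a b c x y u v t) t ∧
      dS a b c x y u v t ≤ -(2.99 / ‖y t‖ ^ 2) := by
  have s := R.toSeg h
  refine ⟨⟨VL 0.00081 8.9927 y v, VL' a b c 0.00081 8.9927 x y u v, fun t ht => ⟨s.dVL _ _ ht, ?_⟩,
    fun t ht => ?_⟩, fun t ht => ⟨s.dS ht, s.dS_le h ht⟩⟩
  · obtain ⟨F, f1, f2, f3, f4⟩ := R.apriori h ht
    have hH : |cr (y t) (v t)| ≤ 0.0803 := by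
      have := H_bd h F.am
      linarith
    have hq : dS a b c x y u v t ≤ -(2.9931 / ‖y t‖ ^ 2) :=
      Sdot_le h (s.hr t ht) (s.hρ t ht) hH (by norm_num)
    exact s.VL_ge h ht (by norm_num) (by norm_num) hq (abs_le.mp f4).1 hH (by norm_num)
      (by norm_num)
  · obtain ⟨F, f1, f2, f3, f4⟩ := R.apriori h ht
    exact s.VL_tot ht (by norm_num) (by norm_num) (by norm_num : (0 : ℝ) < 23.3) f1 (R.S0_le h)
      (by norm_num) (by norm_num)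

end

end Pool.Agent.Helper35TB

namespace Pool.Agent.HM.FAR

open Complex Set Topology Pool.Agent.HM

/-- LYAP: Lyapunov function and strict decrease of the radial velocity -/
theorem lyap (hC : ConsPtStmt) (hB : BridgeStmt) : LyapStmt := by
  intro m hm σ hσ T X R _
  have hT := R.toT hC hB hm hσ
  obtain ⟨hlev, hx2, hR1, hR2, hS1, hS2, hL1, hL2, hg, hE⟩ := R.start
  have hx0 : (X 0).1 ≠ 0 := hlev.1.1
  have hy0 : (X 0).2.1 ≠ 0 := norm_pos_iff.mp (by linarith)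
  have hb := hB m hm (X 0) hx0 hy0
  obtain ⟨h1, h2⟩ := hT.lyap hb.1.toB
  refine ⟨h1, _, fun t ht => ⟨?_, (h2 t ht).2⟩⟩
  have h3 := (h2 t ht).1
  have e : (fun t => SS (X t)) = fun t => Helper35TB.Sr (X t).2.1 (X t).2.2.2 := by
    funext s
    rw [SS, Helper35TB.Sr, hb.2.2.1]
  rw [e]
  exact h3

end Pool.Agent.HM.FAR
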