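import Pool.Agent.Helper35_TB.Force

set_option autoImplicit false

namespace Pool.Agent.Helper35TB

open Set

/-- numerical consequences of MassNear -/
structure MassB (a b c : ℝ) : Prop where
  ha : |a - 1| ≤ 1 / 10 ^ 6
  hb : |b - 1| ≤ 1 / 10 ^ 6
  hc : |c - 1| ≤ 1 / 10 ^ 6
  m1 : 1.999998 ≤ a + b
  m2 : a + b ≤ 2.000002
  M1 : 2.999997 ≤ a + b + c
  M2 : a + b + c ≤ 3.000003
  c1 : 0.999999 ≤ c
  c2 : c ≤ 1.000001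
  al1 : 0.499999 ≤ b / (a + b)
  al2 : b / (a + b) ≤ 0.500001
  be1 : 0.499999 ≤ a / (a + b)
  be2 : a / (a + b) ≤ 0.500001
  sum : a / (a + b) + b / (a + b) = 1

lemma MassNear.toB {a b c : ℝ} (h : MassNear a b c) : MassB a b c := by
  obtain ⟨h1, h2, h3⟩ := h
  have e1 := abs_le.mp h1
  have e2 := abs_le.mp h2
  have e3 := abs_le.mp h3
  have hpos : 0 < a + b := by linarith
  refine ⟨h1, h2, h3, by linarith, by linarith, by linarith, by linarith, by linarith,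
    by linarith, ?_, ?_, ?_, ?_, ?_⟩
  · rw [le_div_iff₀ hpos]; linarith
  · rw [div_le_iff₀ hpos]; linarith
  · rw [le_div_iff₀ hpos]; linarith
  · rw [div_le_iff₀ hpos]; linarith
  · field_simp

/-- outer distances are close to |y| -/
lemma dist_p (β : ℝ) (hβ : 0 ≤ β) (x y : ℂ) :
    ‖y‖ - β * ‖x‖ ≤ ‖y - β • x‖ ∧ ‖y - β • x‖ ≤ ‖y‖ + β * ‖x‖ := by
  have h : ‖β • x‖ = β * ‖x‖ := by rw [norm_smul, Real.norm_eq_abs, abs_of_nonneg hβ]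
  constructor
  · rw [← h]; exact norm_sub_norm_le y _
  · rw [← h]; exact norm_sub_le y _

lemma dist_q (α : ℝ) (hα : 0 ≤ α) (x y : ℂ) :
    ‖y‖ - α * ‖x‖ ≤ ‖y + α • x‖ ∧ ‖y + α • x‖ ≤ ‖y‖ + α * ‖x‖ := by
  have := dist_p α hα (-x) y
  simpa using this

/-- pure real estimate: difference of inverse cubes, with control of the product -/
lemma inv_cube_sub' {p q ρ l h l2 h2 Δ : ℝ} (hρ : 0 < ρ) (hl : 0 < l) (hl2 : 0 < l2)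
    (hp1 : l * ρ ≤ p) (hp2 : p ≤ h * ρ) (hq1 : l * ρ ≤ q) (hq2 : q ≤ h * ρ)
    (hpq1 : l2 * ρ ^ 2 ≤ p * q) (hpq2 : p * q ≤ h2 * ρ ^ 2) (hΔ : q ^ 2 - p ^ 2 = 2 * Δ) :
    ∃ κ : ℝ, l / h2 ^ 3 ≤ κ ∧ κ ≤ h / l2 ^ 3 ∧
      (p ^ 3)⁻¹ - (q ^ 3)⁻¹ = 3 * Δ * κ / ρ ^ 5 := by
  have hlρ : 0 < l * ρ := mul_pos hl hρ
  have hp : 0 < p := lt_of_lt_of_le hlρ hp1
  have hq : 0 < q := lt_of_lt_of_le hlρ hq1
  have hh : 0 < h := by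
    by_contra hh
    push Not at hh
    nlinarith
  have hρ2 : 0 < l2 * ρ ^ 2 := by positivity
  have hh2 : 0 < h2 := by
    by_contra hh
    push Not at hh
    nlinarith [mul_pos hp hq, sq_nonneg ρ]
  have hs : 0 < q + p := by linarith
  have hpq : 0 < p * q := mul_pos hp hq
  refine ⟨(2 / 3) * ρ ^ 5 * (q ^ 2 + q * p + p ^ 2) / ((q + p) * (p * q) ^ 3), ?_, ?_, ?_⟩
  · rw [div_le_div_iff₀ (by positivity) (by positivity)]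
    have e1 : (p * q) ^ 3 ≤ (h2 * ρ ^ 2) ^ 3 := pow_le_pow_left₀ hpq.le hpq2 3
    have e2 : l * ρ * (q + p) * (3 / 2) ≤ q ^ 2 + q * p + p ^ 2 := by
      nlinarith [mul_nonneg (sub_nonneg.mpr hp1) hp.le, mul_nonneg (sub_nonneg.mpr hq1) hq.le,
        mul_nonneg (sub_nonneg.mpr hp1) hq.le, mul_nonneg (sub_nonneg.mpr hq1) hp.le]
    calc l * ((q + p) * (p * q) ^ 3) ≤ l * ((q + p) * (h2 * ρ ^ 2) ^ 3) := by gcongr
      _ = 2 / 3 * ρ ^ 5 * (l * ρ * (q + p) * (3 / 2)) * h2 ^ 3 := by ring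
      _ ≤ 2 / 3 * ρ ^ 5 * (q ^ 2 + q * p + p ^ 2) * h2 ^ 3 := by gcongr
  · rw [div_le_div_iff₀ (by positivity) (by positivity)]
    have e1 : (l2 * ρ ^ 2) ^ 3 ≤ (p * q) ^ 3 := pow_le_pow_left₀ hρ2.le hpq1 3
    have e2 : q ^ 2 + q * p + p ^ 2 ≤ h * ρ * (q + p) * (3 / 2) := by
      nlinarith [mul_nonneg (sub_nonneg.mpr hp2) hp.le, mul_nonneg (sub_nonneg.mpr hq2) hq.le,
        mul_nonneg (sub_nonneg.mpr hp2) hq.le, mul_nonneg (sub_nonneg.mpr hq2) hp.le]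
    calc 2 / 3 * ρ ^ 5 * (q ^ 2 + q * p + p ^ 2) * l2 ^ 3
        ≤ 2 / 3 * ρ ^ 5 * (h * ρ * (q + p) * (3 / 2)) * l2 ^ 3 := by gcongr
      _ = h * ((q + p) * (l2 * ρ ^ 2) ^ 3) := by ring
      _ ≤ h * ((q + p) * (p * q) ^ 3) := by gcongr
  · have hΔ' : Δ = (q ^ 2 - p ^ 2) / 2 := by linarith
    rw [hΔ']
    field_simp
    ring

variable {a b c : ℝ} {x y : ℂ}

/-- half the difference of the squares of the outer distances -/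
noncomputable def Del (a b : ℝ) (x y : ℂ) : ℝ :=
  dt x y + (b / (a + b) - a / (a + b)) * ‖x‖ ^ 2 / 2

lemma Del_eq (h : MassB a b c) :
    ‖y + (b / (a + b)) • x‖ ^ 2 - ‖y - (a / (a + b)) • x‖ ^ 2 = 2 * Del a b x y := by
  rw [normp_sq, normq_sq, Del]
  have hs := h.sum
  have e : b / (a + b) = 1 - a / (a + b) := by linarith
  rw [e]; ring

/-- coarse form of the difference of the inverse cubes -/
lemma kdiff_coarse (h : MassB a b c) (hr : ‖x‖ ≤ 1.1) (hρ : 22.5 ≤ ‖y‖) :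
    ∃ κ : ℝ, 0 ≤ κ ∧ κ ≤ 1.19 ∧ kp a b x y - kq a b x y = 3 * Del a b x y * κ / ‖y‖ ^ 5 := by
  have hx := norm_nonneg x
  obtain ⟨p1, p2⟩ := dist_p (a / (a + b)) (by linarith [h.be1]) x y
  obtain ⟨q1, q2⟩ := dist_q (b / (a + b)) (by linarith [h.al1]) x y
  have hb1 : a / (a + b) * ‖x‖ ≤ 0.500001 * 1.1 := mul_le_mul h.be2 hr hx (by norm_num)
  have hb2 : b / (a + b) * ‖x‖ ≤ 0.500001 * 1.1 := mul_le_mul h.al2 hr hx (by norm_num)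
  have hp0 : 0 < ‖y‖ := by linarith
  obtain ⟨κ, k1, k2, k3⟩ := inv_cube_sub (p := ‖y - (a / (a + b)) • x‖)
    (q := ‖y + (b / (a + b)) • x‖) (ρ := ‖y‖) (l := 0.9755) (h := 1.0245) hp0 (by norm_num)
    (by linarith) (by linarith) (by linarith) (by linarith) (Del_eq h)
  refine ⟨κ, le_trans (by norm_num) k1, k2.trans (by norm_num), k3⟩

/-- sum of the inverse cubes, coarse -/
lemma ksum_coarse (h : MassB a b c) (hr : ‖x‖ ≤ 1.1) (hρ : 22.5 ≤ ‖y‖) :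
    0 ≤ a / (a + b) * kp a b x y + b / (a + b) * kq a b x y ∧
    a / (a + b) * kp a b x y + b / (a + b) * kq a b x y ≤ 1.08 / ‖y‖ ^ 3 := by
  have hx := norm_nonneg x
  obtain ⟨p1, p2⟩ := dist_p (a / (a + b)) (by linarith [h.be1]) x y
  obtain ⟨q1, q2⟩ := dist_q (b / (a + b)) (by linarith [h.al1]) x y
  have hb1 : a / (a + b) * ‖x‖ ≤ 0.500001 * 1.1 := mul_le_mul h.be2 hr hx (by norm_num)
  have hb2 : b / (a + b) * ‖x‖ ≤ 0.500001 * 1.1 := mul_le_mul h.al2 hr hx (by norm_num)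
  have hp0 : 0 < ‖y‖ := by linarith
  have key : ∀ d : ℝ, 0.9755 * ‖y‖ ≤ d → 0 ≤ (d ^ 3)⁻¹ ∧ (d ^ 3)⁻¹ ≤ 1.08 / ‖y‖ ^ 3 := by
    intro d hd
    have hd0 : 0 < d := lt_of_lt_of_le (by positivity) hd
    refine ⟨by positivity, ?_⟩
    rw [inv_eq_one_div, div_le_div_iff₀ (by positivity) (by positivity)]
    have := pow_le_pow_left₀ (by positivity) hd 3
    nlinarith [pow_pos hp0 3]
  obtain ⟨k1, k2⟩ := key _ (show 0.9755 * ‖y‖ ≤ ‖y - (a / (a + b)) • x‖ by linarith)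
  obtain ⟨k3, k4⟩ := key _ (show 0.9755 * ‖y‖ ≤ ‖y + (b / (a + b)) • x‖ by linarith)
  have hs := h.sum
  have hbe := h.be1
  have hal := h.al1
  unfold kp kq
  constructor
  · have : 0 ≤ a / (a + b) := by linarith
    have : 0 ≤ b / (a + b) := by linarith
    positivity
  · calc _ ≤ a / (a + b) * (1.08 / ‖y‖ ^ 3) + b / (a + b) * (1.08 / ‖y‖ ^ 3) := by
          gcongr <;> linarith
      _ = 1.08 / ‖y‖ ^ 3 := by rw [← add_mul, hs, one_mul]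

/-- bound for Del times the cross product -/
lemma Del_cr_le (h : MassB a b c) (hr : ‖x‖ ≤ 1.1) (hρ : 22.5 ≤ ‖y‖) :
    |Del a b x y * cr x y| ≤ 0.5001 * ‖x‖ ^ 2 * ‖y‖ ^ 2 := by
  have h1 := lagrange_id x y
  have h2 := abs_cr_le x y
  have hd : |b / (a + b) - a / (a + b)| ≤ 0.000002 := by
    rw [abs_le]; constructor <;> linarith [h.al1, h.al2, h.be1, h.be2]
  have h3 : |dt x y * cr x y| ≤ ‖x‖ ^ 2 * ‖y‖ ^ 2 / 2 := by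
    rw [abs_le]; constructor <;> nlinarith [sq_nonneg (dt x y + cr x y), sq_nonneg (dt x y - cr x y)]
  have hx := norm_nonneg x
  have h4 : |(b / (a + b) - a / (a + b)) * ‖x‖ ^ 2 / 2 * cr x y|
      ≤ 0.000002 * ‖x‖ ^ 2 / 2 * (‖x‖ * ‖y‖) := by
    rw [abs_mul, abs_div, abs_mul, abs_of_nonneg (sq_nonneg ‖x‖), abs_two]
    gcongr
  have h5 : 0.000002 * ‖x‖ ^ 2 / 2 * (‖x‖ * ‖y‖) ≤ 0.0001 * ‖x‖ ^ 2 * ‖y‖ ^ 2 := by
    have : ‖x‖ ≤ ‖y‖ := by linarith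
    have h6 : ‖x‖ * ‖y‖ ≤ ‖y‖ ^ 2 := by nlinarith [norm_nonneg y]
    have h7 : 0 ≤ ‖x‖ ^ 2 * ‖y‖ ^ 2 := by positivity
    nlinarith [mul_le_mul_of_nonneg_left h6 (sq_nonneg ‖x‖)]
  have e : Del a b x y * cr x y
      = dt x y * cr x y + (b / (a + b) - a / (a + b)) * ‖x‖ ^ 2 / 2 * cr x y := by
    rw [Del]; ring
  rw [e]
  calc _ ≤ _ := abs_add_le _ _
    _ ≤ ‖x‖ ^ 2 * ‖y‖ ^ 2 / 2 + 0.0001 * ‖x‖ ^ 2 * ‖y‖ ^ 2 := by linarith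
    _ = 0.5001 * ‖x‖ ^ 2 * ‖y‖ ^ 2 := by ring

/-- coarse torque bound -/
lemma cr_fF_coarse (h : MassB a b c) (hr : ‖x‖ ≤ 1.1) (hρ : 22.5 ≤ ‖y‖) :
    |cr x (fF a b c x y)| ≤ 1.8 * ‖x‖ ^ 2 / ‖y‖ ^ 3 := by
  obtain ⟨κ, k1, k2, k3⟩ := kdiff_coarse h hr hρ
  have hy : 0 < ‖y‖ := by linarith
  have hD := Del_cr_le h hr hρ
  have hc := h.c2
  have hc0 : 0 ≤ c := by linarith [h.c1]
  have e : cr x (fF a b c x y) = 3 * c * κ * (Del a b x y * cr x y) / ‖y‖ ^ 5 := by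
    rw [cr_fF, k3]; ring
  rw [e, abs_div, abs_mul, abs_of_nonneg (by positivity : 0 ≤ 3 * c * κ),
    abs_of_pos (by positivity : 0 < ‖y‖ ^ 5), div_le_div_iff₀ (by positivity) (by positivity)]
  have h1 : 3 * c * κ ≤ 3 * 1.000001 * 1.19 := by gcongr
  have h2 : 3 * c * κ * |Del a b x y * cr x y|
      ≤ 3 * 1.000001 * 1.19 * (0.5001 * ‖x‖ ^ 2 * ‖y‖ ^ 2) := by gcongr
  have h3 : 0 ≤ ‖x‖ ^ 2 * ‖y‖ ^ 2 * ‖y‖ ^ 3 := by positivity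
  calc 3 * c * κ * |Del a b x y * cr x y| * ‖y‖ ^ 3
      ≤ 3 * 1.000001 * 1.19 * (0.5001 * ‖x‖ ^ 2 * ‖y‖ ^ 2) * ‖y‖ ^ 3 := by gcongr
    _ ≤ 1.8 * ‖x‖ ^ 2 * ‖y‖ ^ 5 := by nlinarith

/-- coarse bound of the tidal force along a vector -/
lemma dt_fF_coarse (h : MassB a b c) (hr : ‖x‖ ≤ 1.1) (hρ : 22.5 ≤ ‖y‖) (A : ℂ) :
    |dt A (fF a b c x y)| ≤ 4.66 * ‖A‖ * ‖x‖ / ‖y‖ ^ 3 := by
  obtain ⟨κ, k1, k2, k3⟩ := kdiff_coarse h hr hρ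
  obtain ⟨s1, s2⟩ := ksum_coarse h hr hρ
  have hy : 0 < ‖y‖ := by linarith
  have hx := norm_nonneg x
  have hA := norm_nonneg A
  have hc := h.c2
  have hc0 : 0 ≤ c := by linarith [h.c1]
  have hd : |b / (a + b) - a / (a + b)| ≤ 0.000002 := by
    rw [abs_le]; constructor <;> linarith [h.al1, h.al2, h.be1, h.be2]
  have hDel : |Del a b x y| ≤ 1.0001 * ‖x‖ * ‖y‖ := by
    rw [Del]
    calc _ ≤ |dt x y| + |(b / (a + b) - a / (a + b)) * ‖x‖ ^ 2 / 2| := abs_add_le _ _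
      _ ≤ ‖x‖ * ‖y‖ + 0.000002 * ‖x‖ ^ 2 / 2 := by
          rw [abs_div, abs_mul, abs_of_nonneg (sq_nonneg ‖x‖), abs_two]
          gcongr
          exact abs_dt_le x y
      _ ≤ 1.0001 * ‖x‖ * ‖y‖ := by
          have : ‖x‖ ≤ ‖y‖ := by linarith
          nlinarith
  have e1 : |(kp a b x y - kq a b x y) * dt A y| ≤ 3.5704 * ‖A‖ * ‖x‖ / ‖y‖ ^ 3 := by
    rw [k3, abs_mul, abs_div, abs_mul, abs_mul, abs_of_nonneg k1,
      abs_of_pos (by positivity : 0 < ‖y‖ ^ 5), abs_of_pos (by norm_num : (0 : ℝ) < 3)]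
    calc 3 * |Del a b x y| * κ / ‖y‖ ^ 5 * |dt A y|
        ≤ 3 * (1.0001 * ‖x‖ * ‖y‖) * 1.19 / ‖y‖ ^ 5 * (‖A‖ * ‖y‖) := by
          gcongr
          exact abs_dt_le A y
      _ = 3 * 1.0001 * 1.19 * (‖A‖ * ‖x‖) / ‖y‖ ^ 3 := by field_simp
      _ ≤ 3.5704 * ‖A‖ * ‖x‖ / ‖y‖ ^ 3 := by
          apply div_le_div_of_nonneg_right _ (by positivity)
          nlinarith [mul_nonneg hA hx]
  have e2 : |(a / (a + b) * kp a b x y + b / (a + b) * kq a b x y) * dt A x|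
      ≤ 1.08 * ‖A‖ * ‖x‖ / ‖y‖ ^ 3 := by
    rw [abs_mul, abs_of_nonneg s1]
    calc _ ≤ 1.08 / ‖y‖ ^ 3 * (‖A‖ * ‖x‖) := by
          gcongr
          exact abs_dt_le A x
      _ = 1.08 * ‖A‖ * ‖x‖ / ‖y‖ ^ 3 := by ring
  rw [dt_fF, abs_mul, abs_of_nonneg hc0]
  have e3 : |(kp a b x y - kq a b x y) * dt A y
      - (a / (a + b) * kp a b x y + b / (a + b) * kq a b x y) * dt A x|
      ≤ 4.6504 * ‖A‖ * ‖x‖ / ‖y‖ ^ 3 := by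
    calc _ ≤ _ := abs_sub _ _
      _ ≤ 3.5704 * ‖A‖ * ‖x‖ / ‖y‖ ^ 3 + 1.08 * ‖A‖ * ‖x‖ / ‖y‖ ^ 3 := add_le_add e1 e2
      _ = 4.6504 * ‖A‖ * ‖x‖ / ‖y‖ ^ 3 := by ring
  calc _ ≤ 1.000001 * (4.6504 * ‖A‖ * ‖x‖ / ‖y‖ ^ 3) := by gcongr
    _ = (1.000001 * 4.6504) * (‖A‖ * ‖x‖ / ‖y‖ ^ 3) := by ring
    _ ≤ 4.66 * (‖A‖ * ‖x‖ / ‖y‖ ^ 3) := by
        have : 0 ≤ ‖A‖ * ‖x‖ / ‖y‖ ^ 3 := by positivity
        nlinarith
    _ = 4.66 * ‖A‖ * ‖x‖ / ‖y‖ ^ 3 := by ring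

/-- the torque on the outer body -/
lemma cr_gF_coarse (h : MassB a b c) (hr : ‖x‖ ≤ 1.1) (hρ : 22.5 ≤ ‖y‖) :
    |cr y (gF a b c x y)| ≤ 1.36 * ‖x‖ ^ 2 / ‖y‖ ^ 3 := by
  obtain ⟨κ, k1, k2, k3⟩ := kdiff_coarse h hr hρ
  have hy : 0 < ‖y‖ := by linarith
  have hD := Del_cr_le h hr hρ
  have hM := h.M2
  have hM0 : 0 ≤ a + b + c := by linarith [h.M1]
  have hb0 : 0 ≤ a / (a + b) := by linarith [h.be1]
  have ha0 : 0 ≤ b / (a + b) := by linarith [h.al1]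
  have hk : kq a b x y - kp a b x y = -(3 * Del a b x y * κ / ‖y‖ ^ 5) := by linarith
  have e : cr y (gF a b c x y) = -((a + b + c) * (a / (a + b)) * (b / (a + b)) * 3 * κ
      * (Del a b x y * cr x y) / ‖y‖ ^ 5) := by
    rw [cr_gF, hk]; ring
  rw [e, abs_neg, abs_div, abs_mul, abs_of_nonneg (by positivity :
    0 ≤ (a + b + c) * (a / (a + b)) * (b / (a + b)) * 3 * κ),
    abs_of_pos (by positivity : 0 < ‖y‖ ^ 5), div_le_div_iff₀ (by positivity) (by positivity)]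
  have h1 : (a + b + c) * (a / (a + b)) * (b / (a + b)) * 3 * κ
      ≤ 3.000003 * 0.500001 * 0.500001 * 3 * 1.19 := by
    have := h.be2
    have := h.al2
    gcongr
  have h3 : 0 ≤ ‖x‖ ^ 2 * ‖y‖ ^ 2 * ‖y‖ ^ 3 := by positivity
  calc _ ≤ 3.000003 * 0.500001 * 0.500001 * 3 * 1.19 * (0.5001 * ‖x‖ ^ 2 * ‖y‖ ^ 2) * ‖y‖ ^ 3 := by
        gcongr
    _ ≤ 1.36 * ‖x‖ ^ 2 * ‖y‖ ^ 5 := by nlinarith

end Pool.Agent.Helper35TB
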