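import Pool.Agent.Helper35_TB.StageD
import Pool.Agent.Helper35_TB.Stmt3

set_option autoImplicit false

namespace Pool.Agent.HM.FAR

open Complex Set Topology Pool.Agent.HM

section

variable {m : Fin 3 → ℝ} {σ T : ℝ} {X : ℝ → JS}

lemma d1 {X : ℝ → JS} {X' : JS} {t : ℝ} (h : HasDerivAt X X' t) :
    HasDerivAt (fun s => (X s).1) X'.1 t := by
  have := (ContinuousLinearMap.fst ℝ ℂ (ℂ × ℂ × ℂ)).hasFDerivAt (x := X t) |>.comp_hasDerivAt t h
  simpa [Function.comp_def] using this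

lemma d2 {X : ℝ → JS} {X' : JS} {t : ℝ} (h : HasDerivAt X X' t) :
    HasDerivAt (fun s => (X s).2.1) X'.2.1 t := by
  have := ((ContinuousLinearMap.fst ℝ ℂ (ℂ × ℂ)).comp
    (ContinuousLinearMap.snd ℝ ℂ (ℂ × ℂ × ℂ))).hasFDerivAt (x := X t) |>.comp_hasDerivAt t h
  simpa [Function.comp_def] using this

lemma d3 {X : ℝ → JS} {X' : JS} {t : ℝ} (h : HasDerivAt X X' t) :
    HasDerivAt (fun s => (X s).2.2.1) X'.2.2.1 t := by
  have := ((ContinuousLinearMap.fst ℝ ℂ ℂ).comp ((ContinuousLinearMap.snd ℝ ℂ (ℂ × ℂ)).comp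
    (ContinuousLinearMap.snd ℝ ℂ (ℂ × ℂ × ℂ)))).hasFDerivAt (x := X t) |>.comp_hasDerivAt t h
  simpa [Function.comp_def] using this

lemma d4 {X : ℝ → JS} {X' : JS} {t : ℝ} (h : HasDerivAt X X' t) :
    HasDerivAt (fun s => (X s).2.2.2) X'.2.2.2 t := by
  have := ((ContinuousLinearMap.snd ℝ ℂ ℂ).comp ((ContinuousLinearMap.snd ℝ ℂ (ℂ × ℂ)).comp
    (ContinuousLinearMap.snd ℝ ℂ (ℂ × ℂ × ℂ)))).hasFDerivAt (x := X t) |>.comp_hasDerivAt t h
  simpa [Function.comp_def] using this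

/-- a run in the variables of `Helper35TB` -/
lemma Run.toT (hC : ConsPtStmt) (hB : BridgeStmt) (hm : NearF m) (hσ : σ = 1 ∨ σ = -1)
    (R : Run m σ T X) : Helper35TB.TRun (m 0) (m 1) (m 2) T (fun t => (X t).1)
      (fun t => (X t).2.1) (fun t => (X t).2.2.1) (fun t => (X t).2.2.2) := by
  have hpos : ∀ i, 0 < m i := fun i => by
    have := abs_lt.mp (hm i)
    linarith
  obtain ⟨hlev, hx2, hR1, hR2, hS1, hS2, hL1, hL2, hg, hE⟩ := R.start
  obtain ⟨hfree, hJE, hJM⟩ := hlev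
  have hx0 : (X 0).1 ≠ 0 := hfree.1
  have hy0 : (X 0).2.1 ≠ 0 := norm_pos_iff.mp (by linarith)
  obtain ⟨b1, b2, b3, b4, b5, b6, b7, b8, b9, b10, b11⟩ := hB m hm (X 0) hx0 hy0
  have hcr : 2 * (σ * LL (X 0)) = |Helper35TB.cr (X 0).1 (X 0).2.2.1| := by
    have hpos : 0 < σ * LL (X 0) := by linarith
    rw [← b2]
    rw [LL] at hpos ⊢
    rcases hσ with rfl | rfl
    · rw [abs_of_pos (by linarith)]; ring
    · rw [abs_of_neg (by linarith)]; ring
  have c1 : Continuous fun t => (X t).1 := continuous_fst.comp R.cont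
  have c2 : Continuous fun t => (X t).2.1 := (continuous_fst.comp continuous_snd).comp R.cont
  refine ⟨R.T0, c1, c2,
    (continuous_fst.comp (continuous_snd.comp continuous_snd)).comp R.cont,
    (continuous_snd.comp (continuous_snd.comp continuous_snd)).comp R.cont, ?_, ?_, ?_, ?_, hx2,
    hR1, ?_, ?_, ?_, ?_, ?_⟩
  · intro t h1 h2 h3 h4 h5
    have hg : Good (X t) := ⟨h1, h2, h3, h4, h5⟩
    have hd := R.ode t hg
    have hxt : (X t).1 ≠ 0 := norm_pos_iff.mp (by linarith)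
    have hyt : (X t).2.1 ≠ 0 := norm_pos_iff.mp (by linarith)
    obtain ⟨e1, e2, e3, e4, e5, e6, e7, e8, e9, e10, e11⟩ := hB m hm (X t) hxt hyt
    obtain ⟨k1, k2⟩ := hC m hpos X t hd (e11 h3 h2)
    have hev : ∀ᶠ s in 𝓝 t, (X s).1 ≠ 0 ∧ (X s).2.1 ≠ 0 :=
      (c1.continuousAt.eventually_ne hxt).and (c2.continuousAt.eventually_ne hyt)
    rw [e4] at hd
    refine ⟨⟨d1 hd, d3 hd⟩, ⟨d2 hd, d4 hd⟩, ?_, ?_⟩
    · refine k1.congr_of_eventuallyEq (hev.mono fun s hs => ?_)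
      obtain ⟨_, _, _, _, f5, _⟩ := hB m hm (X s) hs.1 hs.2
      exact f5.symm
    · refine k2.congr_of_eventuallyEq (hev.mono fun s hs => ?_)
      obtain ⟨_, _, _, _, _, f6, _⟩ := hB m hm (X s) hs.1 hs.2
      exact f6.symm
  · rw [← b5]; exact hJE
  · rw [← b6]; exact hJM
  · exact norm_pos_iff.mpr hx0
  · rw [← b7]; exact hS2
  · linarith
  · linarith
  · rw [b8, abs_mul] at hE
    norm_num at hE ⊢
    linarith
  · intro t ht
    have hS := R.hS t ht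
    rw [SS] at hS
    rw [Helper35TB.Sr, ← b3]
    exact hS

/-- STA: a-priori estimate -/
theorem sta (hC : ConsPtStmt) (hB : BridgeStmt) : StaStmt := by
  intro m hm σ hσ T X R t ht
  have hT := R.toT hC hB hm hσ
  obtain ⟨hlev, hx2, hR1, hR2, hS1, hS2, hL1, hL2, hg, hE⟩ := R.start
  have hx0 : (X 0).1 ≠ 0 := hlev.1.1
  have hy0 : (X 0).2.1 ≠ 0 := norm_pos_iff.mp (by linarith)
  have hMB := (hB m hm (X 0) hx0 hy0).1.toB
  obtain ⟨F, f1, f2, f3, f4⟩ := hT.apriori hMB ht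
  have r1 := F.r1
  have r2 := F.r2
  have hu := F.hu
  have hv := F.hv
  have hxt : (X t).1 ≠ 0 := norm_pos_iff.mp (by linarith)
  have hyt : (X t).2.1 ≠ 0 := norm_pos_iff.mp (by linarith)
  obtain ⟨e1, e2, e3, e4, e5, e6, e7, e8, e9, e10, e11⟩ := hB m hm (X t) hxt hyt
  refine ⟨⟨by linarith, by linarith, by linarith, by linarith, by linarith⟩,
    ⟨e11 (by linarith) (by linarith), ?_, ?_⟩, r1, by linarith, f1, ?_, ?_, ?_, ?_⟩
  · rw [e5]; exact F.en
  · rw [e6]; exact F.am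
  · rw [e8, abs_mul]; norm_num; norm_num at f4; linarith
  · rw [e7]; exact F.S
  · rw [e2]; linarith
  · rw [e2]; linarith

end

end Pool.Agent.HM.FAR
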