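import Pool.Agent.Helper35_TB.Radial
import Pool.Agent.Helper35_TB.Tools

set_option autoImplicit false

namespace Pool.Agent.Helper35TB

open Set

section pointwise

variable {a b c : ℝ} {x y u v : ℂ}

lemma mub_bd (h : MassB a b c) : 0.499998 ≤ mub a b ∧ mub a b ≤ 0.500002 := by
  have e1 := abs_le.mp h.ha
  have e2 := abs_le.mp h.hb
  have hm := h.m1
  have hm2 := h.m2
  have hpos : 0 < a + b := by linarith
  constructor
  · rw [mub, le_div_iff₀ hpos]; nlinarith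
  · rw [mub, div_le_iff₀ hpos]; nlinarith

lemma muo_bd (h : MassB a b c) : 0.66666 ≤ muo a b c ∧ muo a b c ≤ 0.66668 := by
  have e1 := abs_le.mp h.ha
  have e2 := abs_le.mp h.hb
  have e3 := abs_le.mp h.hc
  have hpos : 0 < a + b + c := by linarith
  constructor
  · rw [muo, le_div_iff₀ hpos]; nlinarith
  · rw [muo, div_le_iff₀ hpos]; nlinarith

lemma mub_mul (h : MassB a b c) : mub a b * (a + b) = a * b := by
  have hm := h.m1
  rw [mub]; field_simp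

/-- outer angular momentum -/
lemma H_bd (h : MassB a b c) (hA : Am a b c x y u v = 0) : |cr y v| ≤ 0.7501 * |cr x u| := by
  obtain ⟨m1, m2⟩ := mub_bd h
  obtain ⟨o1, o2⟩ := muo_bd h
  rw [Am] at hA
  have h1 : muo a b c * |cr y v| = mub a b * |cr x u| := by
    have : muo a b c * cr y v = -(mub a b * cr x u) := by linarith
    have h2 := congrArg abs this
    rw [abs_mul, abs_neg, abs_mul, abs_of_pos (by linarith : 0 < muo a b c),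
      abs_of_pos (by linarith : 0 < mub a b)] at h2
    exact h2
  have h3 : 0 ≤ |cr x u| := abs_nonneg _
  have h4 : 0 ≤ |cr y v| := abs_nonneg _
  nlinarith

/-- velocity of the outer body -/
lemma v_sq (hy : 0 < ‖y‖) : ‖v‖ ^ 2 = Sr y v ^ 2 + cr y v ^ 2 / ‖y‖ ^ 2 := by
  have h := lagrange_id y v
  rw [Sr]; field_simp; linarith

lemma abs_Sr_le (hy : 0 < ‖y‖) : |Sr y v| ≤ ‖v‖ := by
  rw [Sr, abs_div, abs_of_pos hy, div_le_iff₀ hy, mul_comm]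
  exact abs_dt_le y v

/-- bound of the angular momentum of the pair without any information on eo -/
lemma cr_bd0 (h : MassB a b c) (hE : En a b c x y u v = -1) (hx0 : 0 < ‖x‖) (hx : ‖x‖ ≤ 1.1)
    (hy : 22.5 ≤ ‖y‖) : |cr x u| ≤ 1.06 := by
  obtain ⟨m1, m2⟩ := mub_bd h
  obtain ⟨o1, o2⟩ := muo_bd h
  have hy0 : 0 < ‖y‖ := by linarith
  have hW := (abs_le.mp (Wf_bound h (by linarith : ‖x‖ ≤ 2) hy)).2
  have hW2 : 0.6 * ‖x‖ ^ 2 / ‖y‖ ^ 3 ≤ 0.001 := by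
    rw [div_le_iff₀ (by positivity)]
    have h1 : ‖x‖ ^ 2 ≤ 1.1 ^ 2 := pow_le_pow_left₀ hx0.le hx 2
    have h2 : (22.5 : ℝ) ^ 3 ≤ ‖y‖ ^ 3 := pow_le_pow_left₀ (by norm_num) hy 3
    nlinarith
  have heo : -(0.14 : ℝ) ≤ eo a b c y v := by
    rw [eo]
    have h1 : (a + b + c) / ‖y‖ ≤ 0.14 := by
      rw [div_le_iff₀ hy0]; nlinarith [h.M2]
    have h2 : 0 ≤ ‖v‖ ^ 2 / 2 := by positivity
    linarith
  rw [En] at hE
  have hmo : -(0.1 : ℝ) ≤ muo a b c * eo a b c y v := by nlinarith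
  have hb : mub a b * eb a b x u ≤ -0.899 := by linarith
  have hb2 : eb a b x u ≤ -1.79 := by
    by_contra hcon
    push Not at hcon
    nlinarith
  have hL := lagrange_id x u
  have h3 : cr x u ^ 2 ≤ ‖x‖ ^ 2 * ‖u‖ ^ 2 := by nlinarith [sq_nonneg (dt x u)]
  have h4 : ‖u‖ ^ 2 = 2 * eb a b x u + 2 * (a + b) / ‖x‖ := by rw [eb]; ring
  have h5 : ‖x‖ ^ 2 * ‖u‖ ^ 2 = 2 * eb a b x u * ‖x‖ ^ 2 + 2 * (a + b) * ‖x‖ := by
    rw [h4]; field_simp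
  have h6 : cr x u ^ 2 ≤ 1.06 ^ 2 := by
    have h7 := h.m2
    have h71 : (eb a b x u + 1.79) * ‖x‖ ^ 2 ≤ 0 :=
      mul_nonpos_of_nonpos_of_nonneg (by linarith) (sq_nonneg _)
    have h72 : (a + b) * ‖x‖ ≤ 2.000002 * ‖x‖ :=
      mul_le_mul_of_nonneg_right h7 hx0.le
    nlinarith [sq_nonneg (‖x‖ - 0.5587)]
  have h8 : |cr x u| ^ 2 ≤ 1.06 ^ 2 := by rw [sq_abs]; exact h6
  exact abs_le_of_sq_le_sq' h6 (by norm_num) |> fun hh => abs_le.mpr ⟨hh.1, hh.2⟩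

/-- pointwise consequences of the energy -/
lemma pw (h : MassB a b c) (hE : En a b c x y u v = -1) (hx0 : 0 < ‖x‖) (hx : ‖x‖ ≤ 2)
    (hy : 22.5 ≤ ‖y‖) {ε l : ℝ} (hε : ε ≤ 0.0042) (he : |eo a b c y v| ≤ ε) (hl : 0 < l)
    (hΛ : l ≤ |cr x u|) :
    ‖x‖ ≤ 1.00001 / (1 - 0.66668 * ε - 0.6 * ‖x‖ ^ 2 / ‖y‖ ^ 3) ∧ l ^ 2 / 4.000004 ≤ ‖x‖ ∧
      ‖u‖ ^ 2 ≤ 4.000004 / ‖x‖ ∧ ‖v‖ ≤ 0.53 := by
  obtain ⟨m1, m2⟩ := mub_bd h
  obtain ⟨o1, o2⟩ := muo_bd h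
  have hy0 : 0 < ‖y‖ := by linarith
  have hW := abs_le.mp (Wf_bound h hx hy)
  have hW2 : 0.6 * ‖x‖ ^ 2 / ‖y‖ ^ 3 ≤ 0.001 := by
    rw [div_le_iff₀ (by positivity)]
    have h1 : ‖x‖ ^ 2 ≤ 2 ^ 2 := pow_le_pow_left₀ hx0.le hx 2
    have h2 : (22.5 : ℝ) ^ 3 ≤ ‖y‖ ^ 3 := pow_le_pow_left₀ (by norm_num) hy 3
    nlinarith
  have hε0 : 0 ≤ ε := le_trans (abs_nonneg _) he
  have he' := abs_le.mp he
  set w := 0.6 * ‖x‖ ^ 2 / ‖y‖ ^ 3 with hw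
  have hw0 : 0 ≤ w := by positivity
  rw [En] at hE
  have hmo : -(0.66668 * ε) ≤ muo a b c * eo a b c y v := by nlinarith
  have hb : mub a b * eb a b x u ≤ -(1 - 0.66668 * ε - w) := by linarith
  have hden : 0.99 ≤ 1 - 0.66668 * ε - w := by linarith
  have hab : a * b ≤ 1.00001 := by
    have e1 := abs_le.mp h.ha
    have e2 := abs_le.mp h.hb
    nlinarith
  have hebx : mub a b * eb a b x u = mub a b * (‖u‖ ^ 2 / 2) - a * b / ‖x‖ := by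
    rw [eb, mul_sub, ← mub_mul h]; ring
  have h1 : (1 - 0.66668 * ε - w) ≤ a * b / ‖x‖ := by
    have : 0 ≤ mub a b * (‖u‖ ^ 2 / 2) := by positivity
    linarith
  have hebneg : eb a b x u ≤ 0 := by
    by_contra hcon
    push Not at hcon
    nlinarith
  have hL := lagrange_id x u
  have h3 : cr x u ^ 2 ≤ ‖x‖ ^ 2 * ‖u‖ ^ 2 := by nlinarith [sq_nonneg (dt x u)]
  have h4 : ‖u‖ ^ 2 = 2 * eb a b x u + 2 * (a + b) / ‖x‖ := by rw [eb]; ring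
  have h5 : ‖x‖ ^ 2 * ‖u‖ ^ 2 = 2 * eb a b x u * ‖x‖ ^ 2 + 2 * (a + b) * ‖x‖ := by
    rw [h4]; field_simp
  refine ⟨?_, ?_, ?_, ?_⟩
  · rw [le_div_iff₀ (by linarith)]
    rw [le_div_iff₀ hx0] at h1
    nlinarith
  · rw [div_le_iff₀ (by norm_num)]
    have h6 : l ^ 2 ≤ cr x u ^ 2 := by
      rw [← sq_abs (cr x u)]
      exact pow_le_pow_left₀ hl.le hΛ 2
    nlinarith [h.m2, mul_nonneg (neg_nonneg.mpr hebneg) (sq_nonneg ‖x‖)]
  · rw [h4, le_div_iff₀ hx0]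
    have : (2 * eb a b x u + 2 * (a + b) / ‖x‖) * ‖x‖ = 2 * eb a b x u * ‖x‖ + 2 * (a + b) := by
      field_simp
    rw [this]
    nlinarith [h.m2, mul_nonneg (neg_nonneg.mpr hebneg) hx0.le]
  · have h6 : ‖v‖ ^ 2 = 2 * eo a b c y v + 2 * ((a + b + c) / ‖y‖) := by rw [eo]; ring
    have h7 : (a + b + c) / ‖y‖ ≤ 0.13334 := by
      rw [div_le_iff₀ hy0]; nlinarith [h.M2]
    have h8 : ‖v‖ ^ 2 ≤ 0.53 ^ 2 := by rw [h6]; linarith
    exact le_of_sq_le_sq h8 (by norm_num)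

/-- lower bound for the outer distance from the radial velocity -/
lemma rho_lower (h : MassB a b c) (hy : 22.5 ≤ ‖y‖) {ε l : ℝ}
    (he : |eo a b c y v| ≤ ε) (hS : |Sr y v| ≤ 0.505) (hH : |cr y v| ≤ 0.11) (hl : 0 < l)
    (hlε : l * (0.1275125 + 0.0000121 + ε) ≤ 2.999997) : l ≤ ‖y‖ := by
  have hy0 : 0 < ‖y‖ := by linarith
  have h6 : ‖v‖ ^ 2 = 2 * eo a b c y v + 2 * ((a + b + c) / ‖y‖) := by rw [eo]; ring
  rw [v_sq hy0] at h6
  have h1 : Sr y v ^ 2 ≤ 0.505 ^ 2 := by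
    rw [← sq_abs]; exact pow_le_pow_left₀ (abs_nonneg _) hS 2
  have h2 : cr y v ^ 2 ≤ 0.11 ^ 2 := by
    rw [← sq_abs]; exact pow_le_pow_left₀ (abs_nonneg _) hH 2
  have h3 : cr y v ^ 2 / ‖y‖ ^ 2 ≤ 0.0000242 := by
    rw [div_le_iff₀ (by positivity)]
    have : (22.5 : ℝ) ^ 2 ≤ ‖y‖ ^ 2 := pow_le_pow_left₀ (by norm_num) hy 2
    nlinarith
  have he' := abs_le.mp he
  have h4 : (a + b + c) / ‖y‖ ≤ 0.1275125 + 0.0000121 + ε := by linarith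
  rw [div_le_iff₀ hy0] at h4
  have h5 := h.M1
  by_contra hcon
  push Not at hcon
  have h7 : 0 < 0.1275125 + 0.0000121 + ε := by
    have := le_trans (abs_nonneg _) he
    linarith
  nlinarith

end pointwise

end Pool.Agent.Helper35TB
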