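import Pool.Agent.Helper35_TB.StageA

set_option autoImplicit false

namespace Pool.Agent.Helper35TB

open Set

section pointwise

variable {a b c : ℝ} {x y u v : ℂ}

lemma dt_split (y v g : ℂ) : dt v g * ‖y‖ ^ 2 = dt y v * dt y g + cr y v * cr y g := by
  rw [norm_sq_eq]; simp only [dt, cr]; ring

/-- derivative of the outer energy -/
lemma dt_vel_gF (h : MassB a b c) (hr : ‖x‖ ≤ 1.1) (hρ : 22.5 ≤ ‖y‖) :
    |dt v (gF a b c x y)| ≤ (2.8 * |Sr y v| * ‖x‖ ^ 2 / ‖y‖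
      + 1.36 * |cr y v| * ‖x‖ ^ 2 / ‖y‖ ^ 2) / ‖y‖ ^ 3 := by
  have hy : 0 < ‖y‖ := by linarith
  have h1 := dt_gF_coarse h hr hρ
  have h2 := cr_gF_coarse h hr hρ
  have h3 := dt_split y v (gF a b c x y)
  have h4 : dt v (gF a b c x y) = Sr y v * dt y (gF a b c x y) / ‖y‖
      + cr y v * cr y (gF a b c x y) / ‖y‖ ^ 2 := by
    rw [Sr]; field_simp; linarith
  rw [h4]
  have h5 : |Sr y v * dt y (gF a b c x y) / ‖y‖| ≤ |Sr y v| * (2.8 * ‖x‖ ^ 2 / ‖y‖ ^ 3) / ‖y‖ := by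
    rw [abs_div, abs_mul, abs_of_pos hy]
    gcongr
  have h6 : |cr y v * cr y (gF a b c x y) / ‖y‖ ^ 2|
      ≤ |cr y v| * (1.36 * ‖x‖ ^ 2 / ‖y‖ ^ 3) / ‖y‖ ^ 2 := by
    rw [abs_div, abs_mul, abs_of_pos (by positivity : 0 < ‖y‖ ^ 2)]
    gcongr
  calc _ ≤ _ := abs_add_le _ _
    _ ≤ _ := add_le_add h5 h6
    _ = _ := by ring

lemma dt_vel_gF' (h : MassB a b c) {r ρ S H k : ℝ} (hr : ‖x‖ ≤ r) (hr1 : r ≤ 1.1) (hρ : ρ ≤ ‖y‖)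
    (hρ1 : 22.5 ≤ ρ) (hS : |Sr y v| ≤ S) (hH : |cr y v| ≤ H)
    (hk : 2.8 * S * r ^ 2 / ρ + 1.36 * H * r ^ 2 / ρ ^ 2 ≤ k) :
    |dt v (gF a b c x y)| ≤ k * (1 / ‖y‖ ^ 3) := by
  have hy : 0 < ‖y‖ := by linarith
  have hρ0 : 0 < ρ := by linarith
  have hS0 : 0 ≤ S := le_trans (abs_nonneg _) hS
  have hH0 : 0 ≤ H := le_trans (abs_nonneg _) hH
  have hx := norm_nonneg x
  have hr0 : 0 ≤ r := hx.trans hr
  refine (dt_vel_gF h (hr.trans hr1) (hρ1.trans hρ)).trans ?_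
  rw [div_eq_mul_one_div]
  apply mul_le_mul_of_nonneg_right _ (by positivity)
  refine le_trans ?_ hk
  gcongr

/-- bound of the derivative of the radial velocity -/
lemma Sdot_le (h : MassB a b c) (hr : ‖x‖ ≤ 1.09) (hρ : 22.5 ≤ ‖y‖) {η q : ℝ}
    (hH : |cr y v| ≤ η) (hq : q + η ^ 2 / 22.5 ≤ 2.99341) :
    cr y v ^ 2 / ‖y‖ ^ 3 - (a + b + c) / ‖y‖ ^ 2 + dt y (gF a b c x y) / ‖y‖ ≤ -(q / ‖y‖ ^ 2) := by
  have hy : 0 < ‖y‖ := by linarith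
  have hx := norm_nonneg x
  have h1 := (abs_le.mp (dt_gF_coarse h (by linarith : ‖x‖ ≤ 1.1) hρ)).2
  have hη : 0 ≤ η := le_trans (abs_nonneg _) hH
  have h2 : cr y v ^ 2 ≤ η ^ 2 := by
    rw [← sq_abs]; exact pow_le_pow_left₀ (abs_nonneg _) hH 2
  have h3 : cr y v ^ 2 / ‖y‖ ^ 3 ≤ η ^ 2 / 22.5 / ‖y‖ ^ 2 := by
    rw [div_div, div_le_div_iff₀ (by positivity) (by positivity)]
    have : 22.5 * ‖y‖ ^ 2 ≤ ‖y‖ ^ 3 := by nlinarith [sq_nonneg ‖y‖]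
    nlinarith [sq_nonneg ‖y‖, sq_nonneg η, mul_le_mul_of_nonneg_left this (sq_nonneg η),
      mul_le_mul_of_nonneg_right h2 (by positivity : 0 ≤ 22.5 * ‖y‖ ^ 2)]
  have h4 : dt y (gF a b c x y) / ‖y‖ ≤ 0.00658 / ‖y‖ ^ 2 := by
    rw [div_le_div_iff₀ hy (by positivity)]
    have h5 : dt y (gF a b c x y) * ‖y‖ ^ 3 ≤ 2.8 * ‖x‖ ^ 2 := by
      rw [← le_div_iff₀ (by positivity)]; exact h1
    have h6 : ‖x‖ ^ 2 ≤ 1.09 ^ 2 := pow_le_pow_left₀ hx hr 2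
    have h7 : (22.5 : ℝ) ^ 2 ≤ ‖y‖ ^ 2 := pow_le_pow_left₀ (by norm_num) hρ 2
    have h8 : dt y (gF a b c x y) * ‖y‖ ^ 3 ≤ 0.00658 * ‖y‖ ^ 2 := by nlinarith
    have h9 : dt y (gF a b c x y) * ‖y‖ ^ 2 * ‖y‖ ≤ 0.00658 * ‖y‖ * ‖y‖ := by nlinarith
    exact le_of_mul_le_mul_right h9 hy
  have h5 : (q + η ^ 2 / 22.5 + 0.00658) / ‖y‖ ^ 2 ≤ (a + b + c) / ‖y‖ ^ 2 := by
    apply div_le_div_of_nonneg_right _ (by positivity)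
    linarith [h.M1]
  rw [add_div, add_div] at h5
  linarith

end pointwise

/-- a piece of an orbit in the weak region -/
structure Seg (a b c T : ℝ) (x y u v : ℝ → ℂ) : Prop where
  T0 : 0 ≤ T
  kx : ∀ t ∈ Icc (0 : ℝ) T, KepAt (a + b) x u (fF a b c (x t) (y t)) t
  ky : ∀ t ∈ Icc (0 : ℝ) T, KepAt (a + b + c) y v (gF a b c (x t) (y t)) t
  en : ∀ t ∈ Icc (0 : ℝ) T, En a b c (x t) (y t) (u t) (v t) = -1
  am : ∀ t ∈ Icc (0 : ℝ) T, Am a b c (x t) (y t) (u t) (v t) = 0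
  hr0 : ∀ t ∈ Icc (0 : ℝ) T, 0 < ‖x t‖
  hr : ∀ t ∈ Icc (0 : ℝ) T, ‖x t‖ ≤ 1.09
  hρ : ∀ t ∈ Icc (0 : ℝ) T, 22.5 ≤ ‖y t‖
  hS : ∀ t ∈ Icc (0 : ℝ) T, -0.505 ≤ Sr (y t) (v t)
  s0 : Sr (y 0) (v 0) ≤ 0.505
  ρ0 : 24 ≤ ‖y 0‖
  L1 : 0.091 ≤ |cr (x 0) (u 0)|
  L2 : |cr (x 0) (u 0)| ≤ 0.098
  e0 : |eo a b c (y 0) (v 0)| ≤ 9e-4

section seg

variable {a b c T : ℝ} {x y u v : ℝ → ℂ}

/-- derivative of S -/
noncomputable def dS (a b c : ℝ) (x y _u v : ℝ → ℂ) (t : ℝ) : ℝ :=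
  cr (y t) (v t) ^ 2 / ‖y t‖ ^ 3 - (a + b + c) / ‖y t‖ ^ 2 + dt (y t) (gF a b c (x t) (y t)) / ‖y t‖

lemma Seg.y0 (s : Seg a b c T x y u v) {t : ℝ} (ht : t ∈ Icc (0 : ℝ) T) : y t ≠ 0 :=
  norm_pos_iff.mp (by linarith [s.hρ t ht])

lemma Seg.dS (s : Seg a b c T x y u v) {t : ℝ} (ht : t ∈ Icc (0 : ℝ) T) :
    HasDerivAt (fun t => Sr (y t) (v t)) (dS a b c x y u v t) t := (s.ky t ht).radial (s.y0 ht)

lemma Seg.dρ (s : Seg a b c T x y u v) {t : ℝ} (ht : t ∈ Icc (0 : ℝ) T) :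
    HasDerivAt (fun t => ‖y t‖) (Sr (y t) (v t)) t := (s.ky t ht).norm (s.y0 ht)

lemma Seg.dL (s : Seg a b c T x y u v) {t : ℝ} (ht : t ∈ Icc (0 : ℝ) T) :
    HasDerivAt (fun t => cr (x t) (u t)) (cr (x t) (fF a b c (x t) (y t))) t := (s.kx t ht).cross

lemma Seg.de (s : Seg a b c T x y u v) {t : ℝ} (ht : t ∈ Icc (0 : ℝ) T) :
    HasDerivAt (fun t => eo a b c (y t) (v t)) (dt (v t) (gF a b c (x t) (y t))) t :=
  (s.ky t ht).energy (s.y0 ht)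

/-- derivative of S / rho -/
lemma Seg.dθ (s : Seg a b c T x y u v) {t : ℝ} (ht : t ∈ Icc (0 : ℝ) T) :
    HasDerivAt (fun t => Sr (y t) (v t) / ‖y t‖)
      (Helper35TB.dS a b c x y u v t / ‖y t‖ - Sr (y t) (v t) ^ 2 / ‖y t‖ ^ 2) t := by
  have hy : ‖y t‖ ≠ 0 := norm_ne_zero_iff.mpr (s.y0 ht)
  refine ((s.dS ht).div (s.dρ ht) hy).congr_deriv ?_
  field_simp

lemma Seg.Hbd (s : Seg a b c T x y u v) (h : MassB a b c) {t : ℝ} (ht : t ∈ Icc (0 : ℝ) T) :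
    |cr (y t) (v t)| ≤ 0.7501 * |cr (x t) (u t)| := H_bd h (s.am t ht)

/-- upper bound of S when the derivative is negative -/
lemma Seg.S_le (s : Seg a b c T x y u v)
    (hneg : ∀ t ∈ Icc (0 : ℝ) T, Helper35TB.dS a b c x y u v t ≤ 0) {t : ℝ}
    (ht : t ∈ Icc (0 : ℝ) T) : Sr (y t) (v t) ≤ Sr (y 0) (v 0) := by
  have := sub_le_of_deriv_le (g := fun _ => 0) (g' := fun _ => 0) (k := 0) (fun τ hτ => s.dS hτ)
    (fun τ _ => hasDerivAt_const τ (0 : ℝ)) (fun τ hτ => by simpa using hneg τ hτ) le_rfl ht.1 ht.2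
  linarith

/-- first stage -/
lemma Seg.stage1 (s : Seg a b c T x y u v) (h : MassB a b c) {t : ℝ} (ht : t ∈ Icc (0 : ℝ) T) :
    |Sr (y t) (v t)| ≤ 0.505 ∧ |cr (x t) (u t)| ≤ 0.1296 ∧ |cr (y t) (v t)| ≤ 0.0973 ∧
      |eo a b c (y t) (v t)| ≤ 0.00204 := by
  have hH : ∀ t ∈ Icc (0 : ℝ) T, |cr (y t) (v t)| ≤ 0.7952 := fun t ht => by
    have := cr_bd0 h (s.en t ht) (s.hr0 t ht) (by linarith [s.hr t ht]) (s.hρ t ht)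
    linarith [s.Hbd h ht]
  have hq : ∀ t ∈ Icc (0 : ℝ) T, Helper35TB.dS a b c x y u v t ≤ -(2.96 / ‖y t‖ ^ 2) := fun t ht =>
    Sdot_le h (s.hr t ht) (s.hρ t ht) (hH t ht) (by norm_num)
  have hneg : ∀ t ∈ Icc (0 : ℝ) T, Helper35TB.dS a b c x y u v t ≤ 0 := fun t ht =>
    (hq t ht).trans (by have : 0 ≤ 2.96 / ‖y t‖ ^ 2 := by positivity
                        linarith)
  have hS : ∀ t ∈ Icc (0 : ℝ) T, |Sr (y t) (v t)| ≤ 0.505 := fun t ht =>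
    abs_le.mpr ⟨s.hS t ht, (s.S_le hneg ht).trans s.s0⟩
  -- Lyapunov function
  have hV : ∀ t ∈ Icc (0 : ℝ) T, HasDerivAt (fun t => -(Sr (y t) (v t) / ‖y t‖) / 2.96)
      (-(Helper35TB.dS a b c x y u v t / ‖y t‖ - Sr (y t) (v t) ^ 2 / ‖y t‖ ^ 2) / 2.96) t :=
    fun t ht => (s.dθ ht).neg.div_const 2.96
  have hV' : ∀ t ∈ Icc (0 : ℝ) T, 1 / ‖y t‖ ^ 3 ≤
      -(Helper35TB.dS a b c x y u v t / ‖y t‖ - Sr (y t) (v t) ^ 2 / ‖y t‖ ^ 2) / 2.96 := by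
    intro t ht
    have hy : 0 < ‖y t‖ := by linarith [s.hρ t ht]
    have h1 := div_le_div_of_nonneg_right (hq t ht) hy.le
    have h2 : -(2.96 / ‖y t‖ ^ 2) / ‖y t‖ = -2.96 * (1 / ‖y t‖ ^ 3) := by field_simp
    have h3 : 0 ≤ Sr (y t) (v t) ^ 2 / ‖y t‖ ^ 2 := by positivity
    rw [le_div_iff₀ (by norm_num)]
    linarith
  have htot : -(Sr (y t) (v t) / ‖y t‖) / 2.96 - -(Sr (y 0) (v 0) / ‖y 0‖) / 2.96 ≤ 0.0147 := by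
    have hy : 0 < ‖y t‖ := by linarith [s.hρ t ht]
    have hy0 : 0 < ‖y 0‖ := by linarith [s.ρ0]
    have h1 : -(0.505 / 22.5) ≤ Sr (y t) (v t) / ‖y t‖ := by
      rw [le_div_iff₀ hy]
      have := s.hS t ht
      have := s.hρ t ht
      nlinarith
    have h2 : Sr (y 0) (v 0) / ‖y 0‖ ≤ 0.505 / 24 := by
      rw [div_le_iff₀ hy0]
      have := s.s0
      have := s.ρ0
      nlinarith
    rw [div_sub_div_same, div_le_iff₀ (by norm_num)]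
    linarith
  have hL : |cr (x t) (u t) - cr (x 0) (u 0)| ≤ 2.1386 *
      (-(Sr (y t) (v t) / ‖y t‖) / 2.96 - -(Sr (y 0) (v 0) / ‖y 0‖) / 2.96) := by
    refine abs_sub_le_of_deriv_le (fun τ hτ => s.dL hτ) hV (fun τ hτ => ?_) le_rfl ht.1 ht.2
    refine (cr_fF_coarse h (by linarith [s.hr τ hτ]) (s.hρ τ hτ)).trans ?_
    have h1 : ‖x τ‖ ^ 2 ≤ 1.09 ^ 2 := pow_le_pow_left₀ (norm_nonneg _) (s.hr τ hτ) 2
    have hy : 0 < ‖y τ‖ := by linarith [s.hρ τ hτ]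
    have h2 := hV' τ hτ
    have h3 : 1.8 * ‖x τ‖ ^ 2 / ‖y τ‖ ^ 3 ≤ 2.1386 * (1 / ‖y τ‖ ^ 3) := by
      rw [div_eq_mul_one_div]
      apply mul_le_mul_of_nonneg_right _ (by positivity)
      linarith
    linarith
  have he : |eo a b c (y t) (v t) - eo a b c (y 0) (v 0)| ≤ 0.0773 *
      (-(Sr (y t) (v t) / ‖y t‖) / 2.96 - -(Sr (y 0) (v 0) / ‖y 0‖) / 2.96) := by
    refine abs_sub_le_of_deriv_le (fun τ hτ => s.de hτ) hV (fun τ hτ => ?_) le_rfl ht.1 ht.2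
    refine (dt_vel_gF' (k := 0.0773) h (r := 1.09) (ρ := 22.5) (s.hr τ hτ) (by norm_num)
      (s.hρ τ hτ) le_rfl (hS τ hτ) (hH τ hτ) (by norm_num)).trans ?_
    have h2 := hV' τ hτ
    linarith
  have hL' := abs_le.mp hL
  have he' := abs_le.mp he
  have hL2 := s.L2
  have he0 := s.e0
  have hLa : |cr (x t) (u t)| ≤ 0.1296 := by
    have : |cr (x t) (u t)| ≤ |cr (x 0) (u 0)| + |cr (x t) (u t) - cr (x 0) (u 0)| := by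
      have := abs_sub_abs_le_abs_sub (cr (x t) (u t)) (cr (x 0) (u 0))
      linarith
    linarith
  refine ⟨hS t ht, hLa, ?_, ?_⟩
  · have := s.Hbd h ht
    linarith
  · have : |eo a b c (y t) (v t)| ≤ |eo a b c (y 0) (v 0)|
        + |eo a b c (y t) (v t) - eo a b c (y 0) (v 0)| := by
      have := abs_sub_abs_le_abs_sub (eo a b c (y t) (v t)) (eo a b c (y 0) (v 0))
      linarith
    linarith

end seg

end Pool.Agent.Helper35TB
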