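import Pool.Agent.Helper35_TB.StageB

set_option autoImplicit false

namespace Pool.Agent.Helper35TB

open Set

section seg

variable {a b c T : ℝ} {x y u v : ℝ → ℂ}

/-- strong decrease of the radial velocity -/
lemma Seg.dS_le (s : Seg a b c T x y u v) (h : MassB a b c) {t : ℝ} (ht : t ∈ Icc (0 : ℝ) T) :
    Helper35TB.dS a b c x y u v t ≤ -(2.99 / ‖y t‖ ^ 2) :=
  Sdot_le h (s.hr t ht) (s.hρ t ht) (s.stage1 h ht).2.2.1 (by norm_num)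

/-- Lyapunov function -/
noncomputable def VL (k n : ℝ) (y v : ℝ → ℂ) (t : ℝ) : ℝ :=
  -(Sr (y t) (v t) / ‖y t‖ + k * Sr (y t) (v t)) / n

noncomputable def VL' (a b c k n : ℝ) (x y u v : ℝ → ℂ) (t : ℝ) : ℝ :=
  -((dS a b c x y u v t / ‖y t‖ - Sr (y t) (v t) ^ 2 / ‖y t‖ ^ 2) + k * dS a b c x y u v t) / n

lemma Seg.dVL (s : Seg a b c T x y u v) (k n : ℝ) {t : ℝ} (ht : t ∈ Icc (0 : ℝ) T) :
    HasDerivAt (VL k n y v) (VL' a b c k n x y u v t) t :=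
  ((s.dθ ht).add ((s.dS ht).const_mul k)).neg.div_const n

/-- growth of the Lyapunov function -/
lemma Seg.VL_ge (s : Seg a b c T x y u v) (h : MassB a b c) {k n q ε η : ℝ} {t : ℝ}
    (ht : t ∈ Icc (0 : ℝ) T) (hk : 0 ≤ k) (hn : 0 < n)
    (hq : Helper35TB.dS a b c x y u v t ≤ -(q / ‖y t‖ ^ 2))
    (he : -ε ≤ eo a b c (y t) (v t)) (hη : |cr (y t) (v t)| ≤ η)
    (hkε : 2 * ε ≤ k * q) (hnq : n ≤ q + 5.99999 - η ^ 2 / 22.5) :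
    1 / ‖y t‖ ^ 3 ≤ VL' a b c k n x y u v t := by
  have hy : 0 < ‖y t‖ := by linarith [s.hρ t ht]
  have hρ := s.hρ t ht
  rw [VL', le_div_iff₀ hn]
  set ρ := ‖y t‖ with hρd
  set D := Helper35TB.dS a b c x y u v t
  have h1 : D / ρ ≤ -(q / ρ ^ 3) := by
    have := div_le_div_of_nonneg_right hq hy.le
    have e : -(q / ρ ^ 2) / ρ = -(q / ρ ^ 3) := by field_simp
    rwa [e] at this
  have h2 : k * D ≤ -(2 * ε / ρ ^ 2) := by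
    have h3 := mul_le_mul_of_nonneg_left hq hk
    have h4 : 2 * ε / ρ ^ 2 ≤ k * q / ρ ^ 2 := div_le_div_of_nonneg_right hkε (by positivity)
    have e : k * -(q / ρ ^ 2) = -(k * q / ρ ^ 2) := by ring
    rw [e] at h3
    linarith
  have h6 : ‖v t‖ ^ 2 = 2 * eo a b c (y t) (v t) + 2 * ((a + b + c) / ρ) := by
    rw [eo, ← hρd]; ring
  rw [v_sq hy, ← hρd] at h6
  have h7 : 5.99999 / ρ - 2 * ε - cr (y t) (v t) ^ 2 / ρ ^ 2 ≤ Sr (y t) (v t) ^ 2 := by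
    have h8 : 5.99999 / ρ ≤ 2 * ((a + b + c) / ρ) := by
      rw [← mul_div_assoc]
      exact div_le_div_of_nonneg_right (by linarith [h.M1]) hy.le
    linarith
  have h9 := div_le_div_of_nonneg_right h7 (sq_nonneg ρ)
  have h10 : (5.99999 / ρ - 2 * ε - cr (y t) (v t) ^ 2 / ρ ^ 2) / ρ ^ 2
      = 5.99999 / ρ ^ 3 - 2 * ε / ρ ^ 2 - cr (y t) (v t) ^ 2 / ρ ^ 4 := by field_simp
  rw [h10] at h9
  have h11 : cr (y t) (v t) ^ 2 / ρ ^ 4 ≤ η ^ 2 / 22.5 / ρ ^ 3 := by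
    have h12 : cr (y t) (v t) ^ 2 ≤ η ^ 2 := by
      rw [← sq_abs]; exact pow_le_pow_left₀ (abs_nonneg _) hη 2
    rw [div_div, div_le_div_iff₀ (by positivity) (by positivity)]
    have h13 : 22.5 * ρ ^ 3 ≤ ρ ^ 4 := by
      have : 0 < ρ ^ 3 := by positivity
      nlinarith
    calc cr (y t) (v t) ^ 2 * (22.5 * ρ ^ 3) ≤ η ^ 2 * (22.5 * ρ ^ 3) := by gcongr
      _ ≤ η ^ 2 * ρ ^ 4 := by gcongr
  have h14 : n / ρ ^ 3 ≤ (q + 5.99999 - η ^ 2 / 22.5) / ρ ^ 3 :=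
    div_le_div_of_nonneg_right hnq (by positivity)
  have h15 : (q + 5.99999 - η ^ 2 / 22.5) / ρ ^ 3
      = q / ρ ^ 3 + 5.99999 / ρ ^ 3 - η ^ 2 / 22.5 / ρ ^ 3 := by ring
  have h16 : 1 / ρ ^ 3 * n = n / ρ ^ 3 := by ring
  rw [h15] at h14
  rw [h16]
  linarith

/-- total growth -/
lemma Seg.VL_tot (s : Seg a b c T x y u v) {k n S0 ρ0 B : ℝ} {t : ℝ}
    (ht : t ∈ Icc (0 : ℝ) T) (hk : 0 ≤ k) (hn : 0 < n) (hρ0 : 0 < ρ0) (hρ : ρ0 ≤ ‖y t‖)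
    (hS0 : Sr (y 0) (v 0) ≤ S0) (hS00 : 0 ≤ S0)
    (hB : S0 / 24 + 0.505 / ρ0 + k * (S0 + 0.505) ≤ B * n) :
    VL k n y v t - VL k n y v 0 ≤ B := by
  have hy : 0 < ‖y t‖ := by linarith [s.hρ t ht]
  have hy0 : 0 < ‖y 0‖ := by linarith [s.ρ0]
  have hSt := s.hS t ht
  have h1 : -(0.505 / ρ0) ≤ Sr (y t) (v t) / ‖y t‖ := by
    rw [← neg_div, div_le_div_iff₀ hρ0 hy]
    rcases le_or_gt 0 (Sr (y t) (v t)) with h2 | h2
    · nlinarith [mul_nonneg h2 hρ0.le]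
    · nlinarith
  have h2 : Sr (y 0) (v 0) / ‖y 0‖ ≤ S0 / 24 := by
    rw [div_le_div_iff₀ hy0 (by norm_num)]
    have := s.ρ0
    nlinarith
  have h3 := mul_le_mul_of_nonneg_left hS0 hk
  have h4 := mul_le_mul_of_nonneg_left hSt hk
  rw [VL, VL, div_sub_div_same, div_le_iff₀ hn]
  linarith

/-- second stage -/
lemma Seg.stage2 (s : Seg a b c T x y u v) (h : MassB a b c) {r ρ B lo hi e : ℝ}
    (hr1 : r ≤ 1.09) (hρ1 : 22.5 ≤ ρ) (hr : ∀ t ∈ Icc (0 : ℝ) T, ‖x t‖ ≤ r)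
    (hρ : ∀ t ∈ Icc (0 : ℝ) T, ρ ≤ ‖y t‖)
    (hB : 0.505 / 24 + 0.505 / ρ + 0.0013646 * 1.01 ≤ B * 8.989)
    (hhi : 0.098 + 1.8 * r ^ 2 * B ≤ hi) (hlo : lo ≤ 0.091 - 1.8 * r ^ 2 * B)
    (he : 9e-4 + (2.8 * 0.505 * r ^ 2 / ρ + 1.36 * 0.0973 * r ^ 2 / ρ ^ 2) * B ≤ e)
    {t : ℝ} (ht : t ∈ Icc (0 : ℝ) T) :
    lo ≤ |cr (x t) (u t)| ∧ |cr (x t) (u t)| ≤ hi ∧ |eo a b c (y t) (v t)| ≤ e := by
  have hρ0 : 0 < ρ := by linarith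
  have hr0 : 0 ≤ r := (norm_nonneg _).trans (hr t ht)
  have hV : ∀ t ∈ Icc (0 : ℝ) T, HasDerivAt (VL 0.0013646 8.989 y v)
      (VL' a b c 0.0013646 8.989 x y u v t) t := fun t ht => s.dVL _ _ ht
  have hV' : ∀ t ∈ Icc (0 : ℝ) T, 1 / ‖y t‖ ^ 3 ≤ VL' a b c 0.0013646 8.989 x y u v t :=
    fun t ht => s.VL_ge h ht (by norm_num) (by norm_num) (s.dS_le h ht)
      (abs_le.mp (s.stage1 h ht).2.2.2).1 (s.stage1 h ht).2.2.1 (by norm_num) (by norm_num)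
  have htot : VL 0.0013646 8.989 y v t - VL 0.0013646 8.989 y v 0 ≤ B :=
    s.VL_tot ht (by norm_num) (by norm_num) hρ0 (hρ t ht) s.s0 (by norm_num)
      (le_trans (le_of_eq (by norm_num)) hB)
  have hL : |cr (x t) (u t) - cr (x 0) (u 0)| ≤ (1.8 * r ^ 2) *
      (VL 0.0013646 8.989 y v t - VL 0.0013646 8.989 y v 0) := by
    refine abs_sub_le_of_deriv_le (fun τ hτ => s.dL hτ) hV (fun τ hτ => ?_) le_rfl ht.1 ht.2
    refine (cr_fF_coarse h (by linarith [s.hr τ hτ]) (s.hρ τ hτ)).trans ?_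
    have h1 : ‖x τ‖ ^ 2 ≤ r ^ 2 := pow_le_pow_left₀ (norm_nonneg _) (hr τ hτ) 2
    have hy : 0 < ‖y τ‖ := by linarith [s.hρ τ hτ]
    have h2 := mul_le_mul_of_nonneg_left (hV' τ hτ) (by positivity : 0 ≤ 1.8 * r ^ 2)
    have h3 : 1.8 * ‖x τ‖ ^ 2 / ‖y τ‖ ^ 3 ≤ (1.8 * r ^ 2) * (1 / ‖y τ‖ ^ 3) := by
      rw [div_eq_mul_one_div]
      apply mul_le_mul_of_nonneg_right _ (by positivity)
      linarith
    linarith
  set κ := 2.8 * 0.505 * r ^ 2 / ρ + 1.36 * 0.0973 * r ^ 2 / ρ ^ 2 with hκ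
  have hκ0 : 0 ≤ κ := by positivity
  have he' : |eo a b c (y t) (v t) - eo a b c (y 0) (v 0)| ≤ κ *
      (VL 0.0013646 8.989 y v t - VL 0.0013646 8.989 y v 0) := by
    refine abs_sub_le_of_deriv_le (fun τ hτ => s.de hτ) hV (fun τ hτ => ?_) le_rfl ht.1 ht.2
    refine (dt_vel_gF' (k := κ) h (hr τ hτ) (by linarith)
      (hρ τ hτ) hρ1 (s.stage1 h hτ).1 (s.stage1 h hτ).2.2.1 le_rfl).trans ?_
    exact mul_le_mul_of_nonneg_left (hV' τ hτ) hκ0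
  have hL3 := mul_le_mul_of_nonneg_left htot (by positivity : 0 ≤ 1.8 * r ^ 2)
  have he3 := mul_le_mul_of_nonneg_left htot hκ0
  have hL1 := s.L1
  have hL2 := s.L2
  have he0 := s.e0
  have i1 := abs_sub_abs_le_abs_sub (cr (x t) (u t)) (cr (x 0) (u 0))
  have i2 := abs_sub_abs_le_abs_sub (cr (x 0) (u 0)) (cr (x t) (u t))
  rw [abs_sub_comm (cr (x 0) (u 0))] at i2
  have i3 := abs_sub_abs_le_abs_sub (eo a b c (y t) (v t)) (eo a b c (y 0) (v 0))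
  refine ⟨by linarith, by linarith, by linarith⟩

end seg

end Pool.Agent.Helper35TB
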