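import Pool.Agent.Helper35_TB.StageC

set_option autoImplicit false

namespace Pool.Agent.Helper35TB

open Set

/-- final region -/
structure RegF (a b c : ℝ) (x y u v : ℂ) : Prop where
  en : En a b c x y u v = -1
  am : Am a b c x y u v = 0
  r1 : 0.0016 ≤ ‖x‖
  r2 : ‖x‖ ≤ 1.001
  R1 : 23.28 ≤ ‖y‖
  hu : ‖u‖ ≤ 51
  hv : ‖v‖ ≤ 0.53
  S : |Sr y v| ≤ 0.505
  e : |eo a b c y v| ≤ 0.001275
  L1 : 0.0803 ≤ |cr x u|
  L2 : |cr x u| ≤ 0.1088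
  H : |cr y v| ≤ 0.0973

section seg

variable {a b c T : ℝ} {x y u v : ℝ → ℂ}

lemma Seg.regF (s : Seg a b c T x y u v) (h : MassB a b c) {t : ℝ} (ht : t ∈ Icc (0 : ℝ) T) :
    RegF a b c (x t) (y t) (u t) (v t) := by
  obtain ⟨l1, l2, l3⟩ := s.stage2 (r := 1.09) (ρ := 22.5) (B := 0.005) (lo := 0.0803)
    (hi := 0.1088) (e := 0.001275) h le_rfl le_rfl s.hr s.hρ (by norm_num) (by norm_num)
    (by norm_num) (by norm_num) ht
  obtain ⟨t1, t2, t3, t4⟩ := s.stage1 h ht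
  have hr := s.hr t ht
  have hρ := s.hρ t ht
  have hr0 := s.hr0 t ht
  obtain ⟨p1, p2, p3, p4⟩ := pw h (s.en t ht) hr0 (by linarith) hρ (ε := 0.001275)
    (l := 0.0803) (by norm_num) l3 (by norm_num) l1
  have hR := rho_lower h hρ l3 t1 (t3.trans (by norm_num)) (l := 23.28) (by norm_num)
    (by norm_num)
  have hW2 : 0.6 * ‖x t‖ ^ 2 / ‖y t‖ ^ 3 ≤ 0.00007 := by
    rw [div_le_iff₀ (by positivity)]
    have h1 : ‖x t‖ ^ 2 ≤ 1.09 ^ 2 := pow_le_pow_left₀ hr0.le hr 2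
    have h2 : (22.5 : ℝ) ^ 3 ≤ ‖y t‖ ^ 3 := pow_le_pow_left₀ (by norm_num) hρ 3
    nlinarith
  have hr1 : 0.0016 ≤ ‖x t‖ := le_trans (by norm_num) p2
  have hu : ‖u t‖ ^ 2 ≤ 51 ^ 2 := by
    refine p3.trans ?_
    rw [div_le_iff₀ hr0]
    linarith
  refine ⟨s.en t ht, s.am t ht, hr1, ?_, hR, le_of_sq_le_sq hu (by norm_num), p4, t1, l3, l1, l2,
    t3⟩
  refine p1.trans ?_
  rw [div_le_iff₀ (by linarith)]
  linarith

end seg

/-- a run of the cut-off flow -/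
structure TRun (a b c T : ℝ) (x y u v : ℝ → ℂ) : Prop where
  T0 : 0 ≤ T
  cx : Continuous x
  cy : Continuous y
  cu : Continuous u
  cv : Continuous v
  ode : ∀ t, 1 / 1000 < ‖x t‖ → ‖x t‖ < 1.1 → 17 < ‖y t‖ → ‖u t‖ < 100 → ‖v t‖ < 2 →
    KepAt (a + b) x u (fF a b c (x t) (y t)) t ∧ KepAt (a + b + c) y v (gF a b c (x t) (y t)) t ∧
    HasDerivAt (fun s => En a b c (x s) (y s) (u s) (v s)) 0 t ∧
    HasDerivAt (fun s => Am a b c (x s) (y s) (u s) (v s)) 0 t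
  E0 : En a b c (x 0) (y 0) (u 0) (v 0) = -1
  A0 : Am a b c (x 0) (y 0) (u 0) (v 0) = 0
  x0 : 0 < ‖x 0‖
  x2 : ‖x 0‖ ≤ 2
  ρ0 : 24 ≤ ‖y 0‖
  s0 : Sr (y 0) (v 0) ≤ 0.505
  L1 : 0.091 ≤ |cr (x 0) (u 0)|
  L2 : |cr (x 0) (u 0)| ≤ 0.098
  e0 : |eo a b c (y 0) (v 0)| ≤ 9e-4
  hS : ∀ t ∈ Icc (0 : ℝ) T, -0.505 ≤ Sr (y t) (v t)

section trun

variable {a b c T : ℝ} {x y u v : ℝ → ℂ}

/-- the controlled function -/
noncomputable def hh (x y u v : ℝ → ℂ) (t : ℝ) : ℝ :=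
  min (min (‖x t‖ - 0.0011) (1.09 - ‖x t‖)) (min (‖y t‖ - 22.5) (min (99 - ‖u t‖) (1.5 - ‖v t‖)))

lemma hh_nonneg {t : ℝ} (h : 0 ≤ hh x y u v t) : 0.0011 ≤ ‖x t‖ ∧ ‖x t‖ ≤ 1.09 ∧ 22.5 ≤ ‖y t‖ ∧
    ‖u t‖ ≤ 99 ∧ ‖v t‖ ≤ 1.5 := by
  rw [hh, le_min_iff, le_min_iff, le_min_iff, le_min_iff] at h
  obtain ⟨⟨h1, h2⟩, h3, h4, h5⟩ := h
  refine ⟨by linarith, by linarith, by linarith, by linarith, by linarith⟩

lemma hh_pos {t : ℝ} (h1 : 0.0011 < ‖x t‖) (h2 : ‖x t‖ < 1.09) (h3 : 22.5 < ‖y t‖)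
    (h4 : ‖u t‖ < 99) (h5 : ‖v t‖ < 1.5) : 0 < hh x y u v t := by
  rw [hh, lt_min_iff, lt_min_iff, lt_min_iff, lt_min_iff]
  refine ⟨⟨by linarith, by linarith⟩, by linarith, by linarith, by linarith⟩

lemma TRun.seg (R : TRun a b c T x y u v) {t : ℝ} (ht : t ∈ Icc (0 : ℝ) T)
    (hh0 : ∀ s ∈ Icc (0 : ℝ) t, 0 ≤ hh x y u v s) : Seg a b c t x y u v := by
  have hode : ∀ s ∈ Icc (0 : ℝ) t, KepAt (a + b) x u (fF a b c (x s) (y s)) s ∧
      KepAt (a + b + c) y v (gF a b c (x s) (y s)) s ∧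
      HasDerivAt (fun s => En a b c (x s) (y s) (u s) (v s)) 0 s ∧
      HasDerivAt (fun s => Am a b c (x s) (y s) (u s) (v s)) 0 s := by
    intro s hs
    obtain ⟨h1, h2, h3, h4, h5⟩ := hh_nonneg (hh0 s hs)
    exact R.ode s (by linarith) (by linarith) (by linarith) (by linarith) (by linarith)
  have hconst : ∀ f : ℝ → ℝ, (∀ s ∈ Icc (0 : ℝ) t, HasDerivAt f 0 s) → ∀ s ∈ Icc (0 : ℝ) t,
      f s = f 0 := by
    intro f hf s hs
    have := abs_sub_le_of_deriv_le (f' := fun _ => 0) (g := fun _ => 0) (g' := fun _ => 0) (k := 0)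
      hf (fun τ _ => hasDerivAt_const τ (0 : ℝ)) (fun τ hτ => by simp) le_rfl hs.1 hs.2
    simp only [sub_self, mul_zero] at this
    have h2 := abs_nonpos_iff.mp this
    linarith
  refine ⟨ht.1, fun s hs => (hode s hs).1, fun s hs => (hode s hs).2.1, fun s hs => ?_,
    fun s hs => ?_, fun s hs => ?_, fun s hs => ?_, fun s hs => ?_, fun s hs => ?_, R.s0, R.ρ0,
    R.L1, R.L2, R.e0⟩
  · rw [← R.E0]
    exact hconst (fun s => En a b c (x s) (y s) (u s) (v s)) (fun s hs => (hode s hs).2.2.1) s hs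
  · rw [← R.A0]
    exact hconst (fun s => Am a b c (x s) (y s) (u s) (v s)) (fun s hs => (hode s hs).2.2.2) s hs
  · linarith [(hh_nonneg (hh0 s hs)).1]
  · exact (hh_nonneg (hh0 s hs)).2.1
  · exact (hh_nonneg (hh0 s hs)).2.2.1
  · exact R.hS s ⟨hs.1, hs.2.trans ht.2⟩

lemma TRun.hh0 (R : TRun a b c T x y u v) (h : MassB a b c) : 0 < hh x y u v 0 := by
  have hρ := R.ρ0
  obtain ⟨p1, p2, p3, p4⟩ := pw h R.E0 R.x0 R.x2 (by linarith) (ε := 9e-4)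
    (l := 0.091) (by norm_num) R.e0 (by norm_num) R.L1
  have hW2 : 0.6 * ‖x 0‖ ^ 2 / ‖y 0‖ ^ 3 ≤ 0.0003 := by
    rw [div_le_iff₀ (by positivity)]
    have h1 : ‖x 0‖ ^ 2 ≤ 2 ^ 2 := pow_le_pow_left₀ R.x0.le R.x2 2
    have h2 : (24 : ℝ) ^ 3 ≤ ‖y 0‖ ^ 3 := pow_le_pow_left₀ (by norm_num) hρ 3
    nlinarith
  have hr1 : 0.0016 ≤ ‖x 0‖ := le_trans (by norm_num) p2
  have hu : ‖u 0‖ ^ 2 ≤ 51 ^ 2 := by
    refine p3.trans ?_
    rw [div_le_iff₀ R.x0]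
    linarith
  have hu2 := le_of_sq_le_sq hu (by norm_num)
  have hr2 : ‖x 0‖ ≤ 1.01 := by
    refine p1.trans ?_
    rw [div_le_iff₀ (by linarith)]
    linarith
  exact hh_pos (by linarith) (by linarith) (by linarith) (by linarith) (by linarith)

lemma hh_cont (R : TRun a b c T x y u v) : Continuous (hh x y u v) := by
  have h1 := R.cx.norm
  have h2 := R.cy.norm
  have h3 := R.cu.norm
  have h4 := R.cv.norm
  unfold hh
  fun_prop

lemma TRun.hh_pos' (R : TRun a b c T x y u v) (h : MassB a b c) :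
    ∀ t ∈ Icc (0 : ℝ) T, 0 < hh x y u v t := by
  refine cont_induction (hh_cont R).continuousOn (fun t ht hs => ?_) (R.hh0 h).le
  have F := (R.seg ht hs).regF h (t := t) ⟨ht.1, le_rfl⟩
  have := F.r1
  have := F.r2
  have := F.R1
  have := F.hu
  have := F.hv
  exact hh_pos (by linarith) (by linarith) (by linarith) (by linarith) (by linarith)

/-- the whole run is a segment -/
lemma TRun.toSeg (R : TRun a b c T x y u v) (h : MassB a b c) : Seg a b c T x y u v :=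
  R.seg ⟨R.T0, le_rfl⟩ (fun s hs => (R.hh_pos' h s hs).le)

/-- a-priori estimate -/
theorem TRun.apriori (R : TRun a b c T x y u v) (h : MassB a b c) {t : ℝ}
    (ht : t ∈ Icc (0 : ℝ) T) : RegF a b c (x t) (y t) (u t) (v t) ∧ 23.3 ≤ ‖y t‖ ∧
      0.0821 ≤ |cr (x t) (u t)| ∧ |cr (x t) (u t)| ≤ 0.1069 ∧ |eo a b c (y t) (v t)| ≤ 0.001201 := by
  have s := R.toSeg h
  have F := fun t ht => s.regF h (t := t) ht
  obtain ⟨l1, l2, l3⟩ := s.stage2 (r := 1.001) (ρ := 23.28) (B := 0.00491) (lo := 0.0821)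
    (hi := 0.1069) (e := 0.001201) h (by norm_num) (by norm_num) (fun t ht => (F t ht).r2)
    (fun t ht => (F t ht).R1) (by norm_num) (by norm_num)
    (by norm_num) (by norm_num) ht
  refine ⟨F t ht, ?_, l1, l2, l3⟩
  exact rho_lower h (s.hρ t ht) l3 (F t ht).S ((F t ht).H.trans (by norm_num)) (by norm_num)
    (by norm_num)

end trun

end Pool.Agent.Helper35TB
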