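import Pool.Agent.Helper49_HM.Iface

set_option autoImplicit false

/-!
# Submodules of FAR (far excursions): statements
-/

namespace Pool.Agent.HM.FAR

open Complex Set Topology Pool.Agent.HM

noncomputable section

/-- the region in which the modified flow is the true flow -/
def Good (X : JS) : Prop :=
  1 / 1000 < ‖X.1‖ ∧ ‖X.1‖ < 1.1 ∧ 17 < ‖X.2.1‖ ∧ ‖X.2.2.1‖ < 100 ∧ ‖X.2.2.2‖ < 2

/-- FLOW: a global continuous flow which is the true one in the region `Good`. Proof: cut off the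
kernel (`z / max ‖z‖ (1/1000) ^ 3`) and clamp the velocities, so that the field is bounded and
globally Lipschitz; `Pool.Agent.Helper10_Oh.exists_global`; joint continuity by Gronwall. -/
def FlowStmt : Prop := ∀ m : Fin 3 → ℝ, Near1 (1 / 100) m →
  ∃ Φ : JS → ℝ → JS, Continuous (fun p : JS × ℝ => Φ p.1 p.2) ∧ (∀ X, Φ X 0 = X) ∧
    ∀ X t, Good (Φ X t) → HasDerivAt (Φ X) (JVF m (Φ X t)) t

/-- CONSPT: pointwise conservation of energy and angular momentum -/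
def ConsPtStmt : Prop := ∀ m : Fin 3 → ℝ, (∀ i, 0 < m i) → ∀ (X : ℝ → JS) (t : ℝ),
  HasDerivAt X (JVF m (X t)) t → Free m (X t) →
    HasDerivAt (fun s => JE m (X s)) 0 t ∧ HasDerivAt (fun s => JMu m (X s)) 0 t

/-- HIT: continuity of the truncated hitting time -/
def HitStmt : Prop := ∀ (α : Type) [TopologicalSpace α] (g g' : α → ℝ → ℝ) (Tmax : ℝ),
  0 < Tmax → Continuous (fun p : α × ℝ => g p.1 p.2) → (∀ a, 0 < g a 0) →
  (∀ a, ∀ t ∈ Icc (0 : ℝ) Tmax, (∀ s ∈ Icc (0 : ℝ) t, 0 ≤ g a s) →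
    HasDerivAt (g a) (g' a t) t ∧ g' a t < 0) →
  ∃ τ : α → ℝ, Continuous τ ∧ ∀ a, 0 < τ a ∧ τ a ≤ Tmax ∧ (∀ s ∈ Ico 0 (τ a), 0 < g a s) ∧
    0 ≤ g a (τ a) ∧ (τ a < Tmax → g a (τ a) = 0)

/-- POLAR: continuous argument of a curve which avoids 0 -/
def PolarStmt : Prop := ∀ (F F' : ℝ → ℂ) (T : ℝ), 0 ≤ T →
  (∀ t ∈ Icc (0 : ℝ) T, HasDerivAt F (F' t) t) → ContinuousOn F' (Icc 0 T) →
  (∀ t ∈ Icc (0 : ℝ) T, F t ≠ 0) →
  ∃ θ : ℝ → ℝ, θ 0 = 0 ∧ (∀ t ∈ Icc (0 : ℝ) T,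
      HasDerivWithinAt θ ((F' t / F t).im) (Icc 0 T) t) ∧
    ∀ t ∈ Icc (0 : ℝ) T, F t = ((‖F t‖ / ‖F 0‖ : ℝ) : ℂ) * exp (I * θ t) * F 0

end

end Pool.Agent.HM.FAR
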